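import Mathlib

set_option autoImplicit false
set_option linter.unusedSectionVars false
set_option linter.unusedVariables false

/-!
Averages over finite types, and adaptive reading of fresh coordinates.
-/

namespace Pool.Agent.H116Z.LCP

open Finset

/-- the average of a real function on a finite type -/
noncomputable def av {Ω : Type*} [Fintype Ω] (f : Ω → ℝ) : ℝ := (∑ ω, f ω) / Fintype.card Ω

section av

variable {Ω Ω' : Type*} [Fintype Ω] [Fintype Ω']

lemma av_add (f g : Ω → ℝ) : av (fun ω => f ω + g ω) = av f + av g := by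
  simp [av, sum_add_distrib, add_div]

lemma av_sub (f g : Ω → ℝ) : av (fun ω => f ω - g ω) = av f - av g := by
  simp [av, sum_sub_distrib, sub_div]

lemma av_mul_left (c : ℝ) (f : Ω → ℝ) : av (fun ω => c * f ω) = c * av f := by
  simp [av, ← mul_sum, mul_div_assoc]

lemma av_mul_right (c : ℝ) (f : Ω → ℝ) : av (fun ω => f ω * c) = av f * c := by
  simp only [mul_comm _ c, av_mul_left]

lemma av_const [Nonempty Ω] (c : ℝ) : av (fun _ : Ω => c) = c := by
  have : (Fintype.card Ω : ℝ) ≠ 0 := by exact_mod_cast Fintype.card_ne_zero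
  simp [av]

lemma av_mono {f g : Ω → ℝ} (h : ∀ ω, f ω ≤ g ω) : av f ≤ av g := by
  unfold av
  exact div_le_div_of_nonneg_right (sum_le_sum fun ω _ => h ω) (by positivity)

lemma av_nonneg {f : Ω → ℝ} (h : ∀ ω, 0 ≤ f ω) : 0 ≤ av f := by
  unfold av
  exact div_nonneg (sum_nonneg fun ω _ => h ω) (by positivity)

lemma av_sum {κ : Type*} (s : Finset κ) (f : κ → Ω → ℝ) :
    av (fun ω => ∑ k ∈ s, f k ω) = ∑ k ∈ s, av (f k) := by
  unfold av
  rw [sum_comm, sum_div]

lemma av_comm (f : Ω → Ω' → ℝ) :
    av (fun a => av (fun b => f a b)) = av (fun b => av (fun a => f a b)) := by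
  unfold av
  rw [← sum_div, ← sum_div, sum_comm, div_div, div_div, mul_comm]

lemma av_equiv (e : Ω ≃ Ω') (f : Ω' → ℝ) : av (fun ω => f (e ω)) = av f := by
  unfold av
  rw [Equiv.sum_comp e f, Fintype.card_congr e]

lemma av_prod (f : Ω → Ω' → ℝ) :
    av (fun p : Ω × Ω' => f p.1 p.2) = av (fun a => av (fun b => f a b)) := by
  unfold av
  rw [Fintype.sum_prod_type, ← sum_div, div_div, Fintype.card_prod, mul_comm]
  push_cast
  ring

lemma av_le_const [Nonempty Ω] {f : Ω → ℝ} {c : ℝ} (h : ∀ ω, f ω ≤ c) : av f ≤ c :=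
  (av_mono h).trans_eq (av_const c)

lemma av_pi_prod {ι α : Type*} [Fintype ι] [DecidableEq ι] [Fintype α] (f : ι → α → ℝ) :
    av (fun ω : ι → α => ∏ i, f i (ω i)) = ∏ i, av (f i) := by
  unfold av
  rw [prod_div_distrib, Fintype.prod_sum f]
  simp

end av

section fresh

variable {ι J α : Type*} [Fintype ι] [DecidableEq ι] [Fintype J] [DecidableEq J] [Fintype α]
  [Nonempty α]

/-- overwrite the coordinates `sel q` by `u q` -/
noncomputable def put (sel : J → ι) (ω : ι → α) (u : J → α) : ι → α :=
  Function.extend sel u ω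

lemma put_sel {sel : J → ι} (h : Function.Injective sel) (ω : ι → α) (u : J → α) (q : J) :
    put sel ω u (sel q) = u q := h.extend_apply _ _ _

lemma put_other {sel : J → ι} (ω : ι → α) (u : J → α) {c : ι} (hc : ∀ q, sel q ≠ c) :
    put sel ω u c = ω c := Function.extend_apply' _ _ _ (by simpa using hc)

lemma put_put {sel : J → ι} (h : Function.Injective sel) (ω : ι → α) (u : J → α) :
    put sel (put sel ω u) (fun q => ω (sel q)) = ω := by
  funext c
  by_cases hc : ∃ q, sel q = c
  · obtain ⟨q, rfl⟩ := hc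
    rw [put_sel h]
  · push Not at hc
    rw [put_other _ _ hc, put_other _ _ hc]

/-- reading coordinates chosen by a statistic that does not depend on them -/
lemma av_fresh {S : Type*} (st : (ι → α) → S) (sel : S → J → ι)
    (hinj : ∀ ω, Function.Injective (sel (st ω)))
    (hst : ∀ ω u, st (put (sel (st ω)) ω u) = st ω) (g : S → (J → α) → ℝ) :
    av (fun ω => g (st ω) (fun q => ω (sel (st ω) q))) = av (fun ω => av (fun u => g (st ω) u)) := by
  let T : (ι → α) × (J → α) → (ι → α) × (J → α) :=
    fun p => (put (sel (st p.1)) p.1 p.2, fun q => p.1 (sel (st p.1) q))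
  have hT : Function.Involutive T := by
    rintro ⟨ω, u⟩
    simp only [T, hst]
    refine Prod.ext (put_put (hinj ω) ω u) ?_
    funext q
    exact put_sel (hinj ω) ω u q
  have h1 := av_equiv hT.toPerm (fun p => g (st p.1) p.2)
  rw [← av_prod (fun ω u => g (st ω) u), ← h1]
  simp only [Function.Involutive.coe_toPerm, T, hst]
  rw [av_prod (fun ω (u : J → α) => g (st ω) (fun q => ω (sel (st ω) q)))]
  simp only [av_const]

lemma av_restrict (e : J → ι) (he : Function.Injective e) (g : (J → α) → ℝ) :
    av (fun ω : ι → α => g (fun q => ω (e q))) = av g := by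
  have := av_fresh (α := α) (fun _ => ()) (fun _ => e) (fun _ => he) (fun _ _ => rfl)
    (fun _ u => g u)
  simpa only [av_const] using this

/-- the history of what has been read -/
noncomputable def hist (sel : ℕ → (ℕ → J → α) → J → ι) (ω : ι → α) : ℕ → ℕ → J → α
  | 0 => fun _ _ => Classical.arbitrary α
  | i + 1 => Function.update (hist sel ω i) i (fun q => ω (sel i (hist sel ω i) q))

variable (sel : ℕ → (ℕ → J → α) → J → ι) (Used : ℕ → (ℕ → J → α) → Set ι) (N : ℕ)

lemma hist_det
    (hmono : ∀ i < N, ∀ h u, Used i h ⊆ Used (i + 1) (Function.update h i u))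
    (hsel : ∀ i < N, ∀ h u q, sel i h q ∈ Used (i + 1) (Function.update h i u)) :
    ∀ i ≤ N, ∀ ω ω' : ι → α, (∀ c ∈ Used i (hist sel ω i), ω' c = ω c) →
      hist sel ω' i = hist sel ω i := by
  intro i
  induction i with
  | zero => intro _ ω ω' _; rfl
  | succ i ih =>
    intro hi ω ω' hc
    have h1 : hist sel ω' i = hist sel ω i :=
      ih (by omega) ω ω' fun c hcU => hc c (hmono i (by omega) _ _ hcU)
    simp only [hist, h1]
    congr 1
    funext q
    exact hc _ (hsel i (by omega) _ _ q)

lemma hist_step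
    (hinj : ∀ i < N, ∀ h, Function.Injective (sel i h))
    (hfresh : ∀ i < N, ∀ h q, sel i h q ∉ Used i h)
    (hmono : ∀ i < N, ∀ h u, Used i h ⊆ Used (i + 1) (Function.update h i u))
    (hsel : ∀ i < N, ∀ h u q, sel i h q ∈ Used (i + 1) (Function.update h i u))
    (i : ℕ) (hi : i < N) (g : (ℕ → J → α) → ℝ) :
    av (fun ω => g (hist sel ω (i + 1))) =
      av (fun ω => av (fun u => g (Function.update (hist sel ω i) i u))) := by
  refine av_fresh (fun ω => hist sel ω i) (sel i) (fun ω => hinj i hi _) (fun ω u => ?_)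
    (fun h u => g (Function.update h i u))
  refine hist_det sel Used N hmono hsel i hi.le ω _ fun c hc => put_other _ _ fun q hq => ?_
  exact hfresh i hi _ q (hq ▸ hc)

lemma hist_stable (ω : ι → α) (i : ℕ) : ∀ k, i < k →
    hist sel ω k i = fun q => ω (sel i (hist sel ω i) q) := by
  intro k hk
  induction k with
  | zero => omega
  | succ k ih =>
    rcases Nat.lt_succ_iff_lt_or_eq.mp hk with h | h
    · simp only [hist]
      rw [Function.update_of_ne (by omega), ih h]
    · subst h
      simp only [hist, Function.update_self]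

lemma hist_agree (ω : ι → α) {i k l : ℕ} (h1 : i < k) (h2 : k ≤ l) :
    hist sel ω l i = hist sel ω k i := by
  rw [hist_stable sel ω i k h1, hist_stable sel ω i l (by omega)]

/-- mean and variance of an additive functional of the history -/
lemma hist_add
    (hinj : ∀ i < N, ∀ h, Function.Injective (sel i h))
    (hfresh : ∀ i < N, ∀ h q, sel i h q ∉ Used i h)
    (hmono : ∀ i < N, ∀ h u, Used i h ⊆ Used (i + 1) (Function.update h i u))
    (hsel : ∀ i < N, ∀ h u q, sel i h q ∈ Used (i + 1) (Function.update h i u))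
    (δ : ℕ → (J → α) → ℝ) (i : ℕ) (hi : i ≤ N) :
    av (fun ω => ∑ k ∈ range i, δ k (hist sel ω i k)) = ∑ k ∈ range i, av (δ k) ∧
    av (fun ω => (∑ k ∈ range i, δ k (hist sel ω i k) - ∑ k ∈ range i, av (δ k)) ^ 2) ≤
      ∑ k ∈ range i, av (fun u => δ k u ^ 2) := by
  induction i with
  | zero => simp [av]
  | succ i ih =>
    obtain ⟨ih1, ih2⟩ := ih (by omega)
    have key : ∀ (h : ℕ → J → α) (u : J → α),
        ∑ k ∈ range (i + 1), δ k (Function.update h i u k) = ∑ k ∈ range i, δ k (h k) + δ i u := by
      intro h u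
      rw [sum_range_succ, Function.update_self]
      congr 1
      refine sum_congr rfl fun k hk => ?_
      rw [Function.update_of_ne (by have := mem_range.mp hk; omega)]
    constructor
    · rw [hist_step sel Used N hinj hfresh hmono hsel i (by omega)
        (fun h => ∑ k ∈ range (i + 1), δ k (h k))]
      simp only [key, av_add, av_const]
      rw [ih1, sum_range_succ]
    · rw [hist_step sel Used N hinj hfresh hmono hsel i (by omega)
        (fun h => (∑ k ∈ range (i + 1), δ k (h k) - ∑ k ∈ range (i + 1), av (δ k)) ^ 2)]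
      simp only [key]
      have h2 : ∀ z : ℝ, av (fun u => (z + δ i u - ∑ k ∈ range (i + 1), av (δ k)) ^ 2) ≤
          (z - ∑ k ∈ range i, av (δ k)) ^ 2 + av (fun u => δ i u ^ 2) := by
        intro z
        rw [sum_range_succ]
        set a := z - ∑ k ∈ range i, av (δ k) with ha
        have h3 : (fun u => (z + δ i u - (∑ k ∈ range i, av (δ k) + av (δ i))) ^ 2) =
            fun u => ((a - av (δ i)) ^ 2 + 2 * (a - av (δ i)) * δ i u) + δ i u ^ 2 := by
          funext u; rw [ha]; ring
        rw [h3, av_add, av_add, av_const, av_mul_left]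
        nlinarith [sq_nonneg (av (δ i))]
      refine (av_mono fun ω => h2 _).trans ?_
      rw [av_add, av_const, sum_range_succ]
      linarith

end fresh

end Pool.Agent.H116Z.LCP
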