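import Pool.Agent.H116Z.LCP.Noise

set_option autoImplicit false
set_option linter.unusedSectionVars false
set_option linter.unusedVariables false

/-!
The greedy search through bands, and the resulting lower bound for an independent field.
-/

namespace Pool.Agent.H116Z.LCP

open Finset

variable {m D : ℕ} [NeZero D]

/-- horizontal fronts -/
noncomputable def xs (h : ℕ → Win m → Fin D) (i : ℕ) (j : Fin m) : ℕ :=
  ∑ k ∈ range i, dx (h k) j

/-- vertical fronts in band `κ` -/
noncomputable def ys (t : ℕ) (h : ℕ → Win m → Fin D) (i κ : ℕ) (j : Fin m) : ℕ :=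
  ∑ k ∈ range i, if k % t = κ then dy (h k) j else 0

/-- cells read in step `i` -/
noncomputable def sel (t M : ℕ) [NeZero M] (i : ℕ) (h : ℕ → Win m → Fin D) (q : Win m) :
    Fin m × Fin M × Fin M × Fin M :=
  (q.1, Fin.ofNat M (xs h i q.1 + i / t * (3 * m) + q.2.1), Fin.ofNat M (i % t),
    Fin.ofNat M (ys t h i (i % t) q.1 + q.2.2))

/-- cells possibly read before step `i` -/
def Used (t M : ℕ) (i : ℕ) (h : ℕ → Win m → Fin D) : Set (Fin m × Fin M × Fin M × Fin M) :=
  {c | ((c.2.2.1 : ℕ) < i % t ∧ (c.2.1 : ℕ) < xs h i c.1 + i / t * (3 * m) + 3 * m) ∨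
    (c.2.1 : ℕ) < xs h i c.1 + i / t * (3 * m)}

lemma xs_succ (h : ℕ → Win m → Fin D) (i : ℕ) (j : Fin m) :
    xs h (i + 1) j = xs h i j + dx (h i) j := sum_range_succ _ _

lemma ys_succ (t : ℕ) (h : ℕ → Win m → Fin D) (i κ : ℕ) (j : Fin m) :
    ys t h (i + 1) κ j = ys t h i κ j + if i % t = κ then dy (h i) j else 0 := sum_range_succ _ _

lemma xs_mono (h : ℕ → Win m → Fin D) (j : Fin m) {i i' : ℕ} (hi : i ≤ i') :
    xs h i j ≤ xs h i' j := sum_le_sum_of_subset (range_mono hi)

lemma ys_mono (t : ℕ) (h : ℕ → Win m → Fin D) (κ : ℕ) (j : Fin m) {i i' : ℕ} (hi : i ≤ i') :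
    ys t h i κ j ≤ ys t h i' κ j := sum_le_sum_of_subset (range_mono hi)

lemma xs_congr {h h' : ℕ → Win m → Fin D} {i : ℕ} (he : ∀ k < i, h k = h' k) (j : Fin m) :
    xs h i j = xs h' i j := sum_congr rfl fun k hk => by rw [he k (mem_range.mp hk)]

lemma ys_congr (t : ℕ) {h h' : ℕ → Win m → Fin D} {i : ℕ} (he : ∀ k < i, h k = h' k) (κ : ℕ)
    (j : Fin m) : ys t h i κ j = ys t h' i κ j :=
  sum_congr rfl fun k hk => by rw [he k (mem_range.mp hk)]

lemma xs_le (h : ℕ → Win m → Fin D) (i : ℕ) (j : Fin m) : xs h i j ≤ i * (3 * m) := by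
  induction i with
  | zero => simp [xs]
  | succ i ih =>
    have h1 := (dx_le (h i) j).2
    have h2 := Nat.mul_le_mul_left (3 * m) (du_le (h i))
    rw [xs_succ, add_mul]; omega

lemma ys_le (t : ℕ) (h : ℕ → Win m → Fin D) (i κ : ℕ) (j : Fin m) :
    ys t h i κ j ≤ i * (3 * m) := by
  induction i with
  | zero => simp [ys]
  | succ i ih =>
    have h1 := (dy_le (h i) j).2
    have h2 := Nat.mul_le_mul_left (3 * m) (du_le (h i))
    rw [ys_succ, add_mul]; split_ifs <;> omega

lemma succ_div_mod {t : ℕ} (ht : 0 < t) (i : ℕ) :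
    ((i + 1) / t = i / t ∧ (i + 1) % t = i % t + 1) ∨
    ((i + 1) / t = i / t + 1 ∧ (i + 1) % t = 0) := by
  have h1 := Nat.div_add_mod i t
  have h2 := Nat.mod_lt i ht
  by_cases h : i % t + 1 < t
  · exact Or.inl ((Nat.div_mod_unique ht).mpr ⟨by omega, h⟩)
  · refine Or.inr ((Nat.div_mod_unique ht).mpr ⟨?_, ht⟩)
    rw [mul_add]; omega

section proc

variable {t M : ℕ} [NeZero M] (ht : 0 < t) (hM : 2 * (t * t * (3 * m)) + 3 * m ≤ M) (htM : t ≤ M)
include ht hM htM

lemma sel_val {i : ℕ} (hi : i < t * t) (h : ℕ → Win m → Fin D) (q : Win m) :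
    ((sel t M i h q).2.1 : ℕ) = xs h i q.1 + i / t * (3 * m) + q.2.1 ∧
    ((sel t M i h q).2.2.1 : ℕ) = i % t ∧
    ((sel t M i h q).2.2.2 : ℕ) = ys t h i (i % t) q.1 + q.2.2 := by
  have h1 := xs_le h i q.1
  have h2 := ys_le t h i (i % t) q.1
  have h3 : i / t * (3 * m) ≤ i * (3 * m) := Nat.mul_le_mul_right _ (Nat.div_le_self _ _)
  have h4 : i * (3 * m) ≤ t * t * (3 * m) := Nat.mul_le_mul_right _ hi.le
  have h5 := q.2.1.2
  have h6 := q.2.2.2
  have h7 := Nat.mod_lt i ht
  refine ⟨?_, ?_, ?_⟩ <;> simp only [sel, Fin.val_ofNat] <;> apply Nat.mod_eq_of_lt <;> omega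

lemma sel_inj (i : ℕ) (hi : i < t * t) (h : ℕ → Win m → Fin D) :
    Function.Injective (sel t M i h) := by
  intro q q' he
  have h1 := sel_val ht hM htM hi h q
  have h2 := sel_val ht hM htM hi h q'
  have h3 : q.1 = q'.1 := (Prod.ext_iff.mp he).1
  rw [he, h3] at h1
  refine Prod.ext h3 (Prod.ext (Fin.ext ?_) (Fin.ext ?_)) <;> omega

lemma sel_fresh (i : ℕ) (hi : i < t * t) (h : ℕ → Win m → Fin D) (q : Win m) :
    sel t M i h q ∉ Used t M i h := by
  have h1 := sel_val ht hM htM hi h q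
  have h2 : (sel t M i h q).1 = q.1 := rfl
  simp only [Used, Set.mem_ofPred_eq, h2]
  omega

lemma used_mono (i : ℕ) (hi : i < t * t) (h : ℕ → Win m → Fin D) (u : Win m → Fin D) :
    Used t M i h ⊆ Used t M (i + 1) (Function.update h i u) := by
  intro c hc
  have h1 : xs h i c.1 = xs (Function.update h i u) i c.1 :=
    xs_congr (fun k hk => by rw [Function.update_of_ne hk.ne]) _
  have h2 := xs_mono (Function.update h i u) c.1 (Nat.le_add_right i 1)
  simp only [Used, Set.mem_ofPred_eq] at hc ⊢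
  rcases succ_div_mod ht i with ⟨h3, h4⟩ | ⟨h3, h4⟩
  · rw [h3, h4]; omega
  · rw [h3, h4, add_mul]; omega

lemma sel_used (i : ℕ) (hi : i < t * t) (h : ℕ → Win m → Fin D) (u : Win m → Fin D) (q : Win m) :
    sel t M i h q ∈ Used t M (i + 1) (Function.update h i u) := by
  have h0 := sel_val ht hM htM hi h q
  have h1 : xs h i q.1 = xs (Function.update h i u) i q.1 :=
    xs_congr (fun k hk => by rw [Function.update_of_ne hk.ne]) _
  have h2 := xs_mono (Function.update h i u) q.1 (Nat.le_add_right i 1)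
  have h5 : (sel t M i h q).1 = q.1 := rfl
  have h6 := q.2.1.2
  simp only [Used, Set.mem_ofPred_eq, h5]
  rcases succ_div_mod ht i with ⟨h3, h4⟩ | ⟨h3, h4⟩
  · rw [h3, h4]; omega
  · rw [h3, h4, add_mul]; omega

omit ht hM htM in
/-- the real grid inside the extended one -/
def emb (t M X H : ℕ) [NeZero M] (p : Fin m × (Fin X × (Fin t ×ₗ Fin H))) :
    Fin m × Fin M × Fin M × Fin M :=
  (p.1, Fin.ofNat M p.2.1, Fin.ofNat M (ofLex p.2.2).1, Fin.ofNat M (ofLex p.2.2).2)

lemma emb_inj {X H : ℕ} (hX : X ≤ M) (hH : H ≤ M) :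
    Function.Injective (emb (m := m) t M X H) := by
  rintro ⟨j, a, b⟩ ⟨j', a', b'⟩ he
  simp only [emb, Prod.mk.injEq, Fin.ext_iff, Fin.val_ofNat] at he
  obtain ⟨h1, h2, h3, h4⟩ := he
  have := a.2
  have := a'.2
  have := (ofLex b).1.2
  have := (ofLex b').1.2
  have := (ofLex b).2.2
  have := (ofLex b').2.2
  rw [Nat.mod_eq_of_lt (by omega), Nat.mod_eq_of_lt (by omega)] at h2 h3 h4
  exact Prod.ext (Fin.ext h1) (Prod.ext (Fin.ext h2)
    (ofLex.injective (Prod.ext (Fin.ext h3) (Fin.ext h4))))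

lemma pat_of_hist {X H Z : ℕ} (hH : 0 < H) (hX : Z + t * (3 * m) ≤ X) (hX0 : 0 < X)
    (ω : Fin m × Fin M × Fin M × Fin M → Fin D)
    (hx : ∀ j, xs (hist (sel t M) ω (t * t)) (t * t) j ≤ Z) :
    Pat (occ fun p => ω (emb t M X H p))
      (((range (t * t)).filter fun i => du (hist (sel t M) ω (t * t) i) = 1 ∧
        ∀ j, ys t (hist (sel t M) ω (t * t)) (t * t) (i % t) j ≤ H).card) := by
  set h := hist (sel t M) ω (t * t) with hh
  set T := (range (t * t)).filter fun i => du (h i) = 1 ∧ ∀ j, ys t h (t * t) (i % t) j ≤ H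
    with hT
  have key : ∀ (j : Fin m) (i : ℕ), ∃ c : Fin X × (Fin t ×ₗ Fin H), i ∈ T →
      (c ∈ occ (fun p => ω (emb t M X H p)) j ∧
        xs h i j + i / t * (3 * m) ≤ c.1 ∧ (c.1 : ℕ) < xs h (i + 1) j + i / t * (3 * m) ∧
        ((ofLex c.2).1 : ℕ) = i % t ∧ ys t h i (i % t) j ≤ (ofLex c.2).2 ∧
        ((ofLex c.2).2 : ℕ) < ys t h (i + 1) (i % t) j) := by
    intro j i
    by_cases hi : i ∈ T
    swap
    · exact ⟨(⟨0, hX0⟩, toLex (⟨0, ht⟩, ⟨0, hH⟩)), fun h => absurd h hi⟩
    obtain ⟨hi1, hi2, hi3⟩ : i < t * t ∧ du (h i) = 1 ∧ ∀ j, ys t h (t * t) (i % t) j ≤ H := by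
      simpa [hT] using hi
    rcases dich (h i) with ⟨h1, -⟩ | ⟨-, h1⟩
    · omega
    obtain ⟨a, c, ha, hc, hu⟩ := h1 j
    have h2 := xs_succ h i j
    have h3 := ys_succ t h i (i % t) j
    rw [if_pos rfl] at h3
    have h4 := xs_mono h j (Nat.succ_le_of_lt hi1)
    have h5 := ys_mono t h (i % t) j (Nat.succ_le_of_lt hi1)
    have h6 : i / t * (3 * m) ≤ t * (3 * m) :=
      Nat.mul_le_mul_right _ (Nat.div_le_of_le_mul hi1.le)
    have h7 := hx j
    have h8 := hi3 j
    simp only [Nat.succ_eq_add_one] at h4 h5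
    refine ⟨(⟨xs h i j + i / t * (3 * m) + a, by omega⟩,
      toLex (⟨i % t, Nat.mod_lt i ht⟩, ⟨ys t h i (i % t) j + c, by omega⟩)), fun _ => ?_⟩
    refine ⟨?_, by simp, by simp only; omega, rfl, by simp, by simp only [ofLex_toLex]; omega⟩
    have h9 : ∀ k < i, hist (sel t M) ω i k = h k := fun k hk =>
      (hist_agree (sel t M) ω hk hi1.le).symm
    have h10 : h i = fun q => ω (sel t M i (hist (sel t M) ω i) q) :=
      hist_stable (sel t M) ω i _ hi1
    rw [h10] at hu
    simp only [sel, xs_congr h9, ys_congr t h9] at hu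
    exact mem_filter.mpr ⟨mem_univ _, hu⟩
  choose P hP using key
  refine ⟨T, fun i => i % t * (t * t) + i, P, rfl, ?_, fun j i hi => (hP j i hi).1, ?_, ?_⟩
  · intro i hi i' hi' he
    have h1 : i < t * t := mem_range.mp (mem_filter.mp hi).1
    have h2 : i' < t * t := mem_range.mp (mem_filter.mp hi').1
    have h3 := congrArg (· % (t * t)) he
    simp only [Nat.mul_add_mod_self_right] at h3
    rwa [Nat.mod_eq_of_lt h1, Nat.mod_eq_of_lt h2] at h3
  · intro j i hi i' hi' hlt
    obtain ⟨-, -, h1, -⟩ := hP j i hi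
    obtain ⟨-, h2, -⟩ := hP j i' hi'
    have h3 := xs_mono h j (Nat.succ_le_of_lt hlt)
    have h4 : i / t * (3 * m) ≤ i' / t * (3 * m) :=
      Nat.mul_le_mul_right _ (Nat.div_le_div_right hlt.le)
    simp only [Nat.succ_eq_add_one] at h3
    rw [Fin.lt_def]; omega
  · intro j i hi i' hi' hlt
    obtain ⟨-, -, -, h1, -, h2⟩ := hP j i hi
    obtain ⟨-, -, -, h3, h4, -⟩ := hP j i' hi'
    have h5 : i < t * t := mem_range.mp (mem_filter.mp hi).1
    have h6 : i' < t * t := mem_range.mp (mem_filter.mp hi').1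
    have h7 : i % t < i' % t ∨ (i % t = i' % t ∧ i < i') := by
      rcases lt_trichotomy (i % t) (i' % t) with h | h | h
      · exact Or.inl h
      · refine Or.inr ⟨h, ?_⟩
        simp only [h] at hlt; omega
      · exfalso
        have := Nat.mul_le_mul_right (t * t) (Nat.succ_le_of_lt h)
        simp only [Nat.succ_eq_add_one, add_mul] at this hlt
        omega
    rw [Prod.Lex.lt_iff]
    rcases h7 with h7 | ⟨h7, h8⟩
    · left; rw [Fin.lt_def]; omega
    · right
      refine ⟨Fin.ext (by omega), ?_⟩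
      have h9 := ys_mono t h (i % t) j (Nat.succ_le_of_lt h8)
      simp only [Nat.succ_eq_add_one] at h9
      rw [← h7] at h4
      rw [Fin.lt_def]; omega

omit ht hM htM in
lemma tail_le (z h μ : ℝ) (hμ : 0 ≤ μ) (hh : μ < h) (hz : h < z) :
    z ≤ (z - μ) ^ 2 * (h / (h - μ) ^ 2) := by
  have h1 : 0 < h - μ := by linarith
  rw [← mul_div_assoc, le_div_iff₀ (by positivity)]
  have h2 : 0 ≤ (z - h) * (h * z - μ ^ 2) :=
    mul_nonneg (by linarith) (by nlinarith)
  nlinarith

lemma pointwise (hm : 0 < m) {X H Z : ℕ} (hH : 0 < H) (hX : Z + t * (3 * m) ≤ X) (hX0 : 0 < X)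
    (ω : Fin m × Fin M × Fin M × Fin M → Fin D) (μ : ℝ) (ν : ℕ → ℝ) (cx cy : ℝ)
    (hμ : 0 ≤ μ) (hμ' : μ < Z) (hν : ∀ κ, 0 ≤ ν κ) (hν' : ∀ κ, ν κ < H)
    (hcx : Z / (Z - μ) ^ 2 ≤ cx) (hcy : ∀ κ, H / (H - ν κ) ^ 2 ≤ cy) :
    ∑ k ∈ range (t * t), (du (hist (sel t M) ω (t * t) k) : ℝ)
      - cx * ∑ j, ((xs (hist (sel t M) ω (t * t)) (t * t) j : ℝ) - μ) ^ 2
      - cy * ∑ κ ∈ range t, ∑ j, ((ys t (hist (sel t M) ω (t * t)) (t * t) κ j : ℝ) - ν κ) ^ 2
      ≤ Lc (occ fun p => ω (emb t M X H p)) := by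
  have hcx0 : 0 ≤ cx := le_trans (by positivity) hcx
  have hcy0 : 0 ≤ cy := le_trans (by positivity) (hcy 0)
  by_cases hx : ∀ j, xs (hist (sel t M) ω (t * t)) (t * t) j ≤ Z
  · have h1 := (pat_of_hist ht hM htM hH hX hX0 ω hx).le_Lc hm
    set h := hist (sel t M) ω (t * t) with hh
    have h2 : 0 ≤ cx * ∑ j, ((xs h (t * t) j : ℝ) - μ) ^ 2 :=
      mul_nonneg hcx0 (sum_nonneg fun _ _ => sq_nonneg _)
    have h3 : ∑ k ∈ range (t * t), (du (h k) : ℝ) ≤
        (((range (t * t)).filter fun i => du (h i) = 1 ∧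
          ∀ j, ys t h (t * t) (i % t) j ≤ H).card : ℝ) +
        ∑ κ ∈ range t, (if ∀ j, ys t h (t * t) κ j ≤ H then 0 else
          ∑ k ∈ range (t * t), if k % t = κ then (du (h k) : ℝ) else 0) := by
      have h4 : ∀ κ, (if ∀ j, ys t h (t * t) κ j ≤ H then 0 else
          ∑ k ∈ range (t * t), if k % t = κ then (du (h k) : ℝ) else 0) =
          ∑ k ∈ range (t * t), if k % t = κ then
            (if ∀ j, ys t h (t * t) (k % t) j ≤ H then 0 else (du (h k) : ℝ)) else 0 := by
        intro κ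
        split_ifs with hκ
        · symm
          refine sum_eq_zero fun k _ => ?_
          split_ifs with h5 h6
          · rfl
          · exact absurd (h5 ▸ hκ) h6
          · rfl
        · refine sum_congr rfl fun k _ => ?_
          split_ifs with h5 h6
          · exact absurd (h5 ▸ h6) hκ
          · rfl
          · rfl
      simp only [h4]
      rw [sum_comm, card_filter, Nat.cast_sum, ← sum_add_distrib]
      refine sum_le_sum fun k _ => ?_
      rw [sum_ite_eq, if_pos (mem_range.mpr (Nat.mod_lt k ht))]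
      have h5 := du_le (h k)
      by_cases h6 : ∀ j, ys t h (t * t) (k % t) j ≤ H
      · interval_cases du (h k) <;> simp [h6]
      · simp [h6]
    have h7 : ∀ κ, (if ∀ j, ys t h (t * t) κ j ≤ H then 0 else
          ∑ k ∈ range (t * t), if k % t = κ then (du (h k) : ℝ) else 0) ≤
        cy * ∑ j, ((ys t h (t * t) κ j : ℝ) - ν κ) ^ 2 := by
      intro κ
      split_ifs with hκ
      · exact mul_nonneg hcy0 (sum_nonneg fun _ _ => sq_nonneg _)
      · push Not at hκ
        obtain ⟨j, hj⟩ := hκ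
        have h8 : (∑ k ∈ range (t * t), if k % t = κ then (du (h k) : ℝ) else 0) ≤
            ys t h (t * t) κ j := by
          unfold ys
          push_cast
          refine sum_le_sum fun k _ => ?_
          split_ifs
          · exact_mod_cast (dy_le (h k) j).1
          · exact le_rfl
        have h9 := tail_le (ys t h (t * t) κ j) H (ν κ) (hν κ) (hν' κ) (by exact_mod_cast hj)
        have h10 := single_le_sum (f := fun j => ((ys t h (t * t) κ j : ℝ) - ν κ) ^ 2)
          (fun _ _ => sq_nonneg _) (mem_univ j)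
        have h11 := mul_le_mul_of_nonneg_left (hcy κ)
          (sq_nonneg ((ys t h (t * t) κ j : ℝ) - ν κ))
        have h12 := mul_le_mul_of_nonneg_left h10 hcy0
        linarith
    have h13 := sum_le_sum fun κ (_ : κ ∈ range t) => h7 κ
    rw [← mul_sum] at h13
    have h14 : ((((range (t * t)).filter fun i => du (h i) = 1 ∧
          ∀ j, ys t h (t * t) (i % t) j ≤ H).card : ℕ) : ℝ) ≤
        Lc (occ fun p => ω (emb t M X H p)) := by exact_mod_cast h1
    linarith
  · push Not at hx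
    obtain ⟨j, hj⟩ := hx
    set h := hist (sel t M) ω (t * t) with hh
    have h8 : ∑ k ∈ range (t * t), (du (h k) : ℝ) ≤ xs h (t * t) j := by
      unfold xs
      push_cast
      exact sum_le_sum fun k _ => by exact_mod_cast (dx_le (h k) j).1
    have h9 := tail_le (xs h (t * t) j) Z μ hμ hμ' (by exact_mod_cast hj)
    have h10 := single_le_sum (f := fun j => ((xs h (t * t) j : ℝ) - μ) ^ 2)
      (fun _ _ => sq_nonneg _) (mem_univ j)
    have h11 := mul_le_mul_of_nonneg_left hcx (sq_nonneg ((xs h (t * t) j : ℝ) - μ))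
    have h12 := mul_le_mul_of_nonneg_left h10 hcx0
    have h13 : 0 ≤ cy * ∑ κ ∈ range t, ∑ j, ((ys t h (t * t) κ j : ℝ) - ν κ) ^ 2 :=
      mul_nonneg hcy0 (sum_nonneg fun _ _ => sum_nonneg fun _ _ => sq_nonneg _)
    have h14 : (0 : ℝ) ≤ Lc (occ fun p => ω (emb t M X H p)) := Nat.cast_nonneg _
    linarith

end proc

lemma card_mod_le {t : ℕ} (ht : 0 < t) (κ : ℕ) :
    ((range (t * t)).filter fun k => k % t = κ).card ≤ t := by
  conv_rhs => rw [← card_range t]
  refine card_le_card_of_injOn (fun k => k / t) ?_ ?_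
  · intro k hk
    have : k < t * t := mem_range.mp (mem_filter.mp hk).1
    simpa using Nat.div_lt_of_lt_mul this
  · intro k hk k' hk' he
    have h1 := (mem_filter.mp hk).2
    have h2 := (mem_filter.mp hk').2
    have h3 := Nat.div_add_mod k t
    have h4 := Nat.div_add_mod k' t
    simp only at he
    rw [he, h1] at h3
    rw [h2] at h4
    omega

/-- lower bound for the longest common pattern of independent fields -/
lemma field_bound (hm : 0 < m) {t H : ℕ} (ht : 0 < t) (β : ℝ) (hβ : t * pp m D ≤ β)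
    (hH : 3 * β < H) :
    t * (t * pp m D) - 2 * t * (m * (3 * m) ^ 2 * β * (H / (H - 3 * β) ^ 2)) ≤
      av (fun ω : Fin m × (Fin (t * H + t * (3 * m)) × (Fin t ×ₗ Fin H)) → Fin D =>
        (Lc (occ ω) : ℝ)) := by
  have hp := pp_nonneg (m := m) (D := D)
  have ht' : (1 : ℝ) ≤ t := by exact_mod_cast ht
  have hβ0 : 0 ≤ β := le_trans (by positivity) hβ
  have hH0 : 0 < H := by
    have : (0 : ℝ) < H := by linarith
    exact_mod_cast this
  set X := t * H + t * (3 * m) with hXdef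
  set M := 2 * (t * t * (3 * m)) + 3 * m + t + X + H with hMdef
  have : NeZero M := ⟨by omega⟩
  have hM : 2 * (t * t * (3 * m)) + 3 * m ≤ M := by omega
  have htM : t ≤ M := by omega
  have hX0 : 0 < X := by have := Nat.mul_pos ht hH0; omega
  rw [← av_restrict (emb t M X H) (emb_inj ht hM htM (by omega) (by omega))
    (fun ω => (Lc (occ ω) : ℝ))]
  have hadd := fun δ => hist_add (sel (m := m) (D := D) t M) (Used t M) (t * t)
    (sel_inj ht hM htM) (sel_fresh ht hM htM) (used_mono ht hM htM) (sel_used ht hM htM) δ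
    (t * t) le_rfl
  set c : ℕ → ℝ := fun κ => (((range (t * t)).filter fun k => k % t = κ).card : ℝ) with hc
  have hc0 : ∀ κ, 0 ≤ c κ := fun κ => Nat.cast_nonneg _
  have hct : ∀ κ, c κ ≤ t := fun κ => by
    simp only [hc]; exact_mod_cast card_mod_le ht κ
  have hcp : ∀ κ, c κ * pp m D ≤ β := fun κ =>
    (mul_le_mul_of_nonneg_right (hct κ) hp).trans hβ
  have hd : 0 < (H : ℝ) - 3 * β := by linarith
  set e : ℝ := H / (H - 3 * β) ^ 2 with he
  have he0 : 0 ≤ e := by positivity
  have hpt := fun ω => pointwise (D := D) ht hM htM hm (X := X) (Z := t * H) hH0 le_rfl hX0 ω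
    (t * t * (3 * pp m D)) (fun κ => c κ * (3 * pp m D)) (e / t) e (by positivity)
    (by push_cast; nlinarith) (fun κ => mul_nonneg (hc0 κ) (by positivity))
    (fun κ => by nlinarith [hcp κ])
    (by
      push_cast
      have h1 : (t : ℝ) * (H - 3 * β) ≤ t * H - t * t * (3 * pp m D) := by nlinarith
      have h2 : e / t = t * H / (t * (H - 3 * β)) ^ 2 := by
        rw [he]; field_simp
      rw [h2]
      exact div_le_div_of_nonneg_left (by positivity) (by positivity)
        (pow_le_pow_left₀ (by positivity) h1 2))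
    (fun κ => by
      have h1 : (H : ℝ) - 3 * β ≤ H - c κ * (3 * pp m D) := by nlinarith [hcp κ]
      exact div_le_div_of_nonneg_left (by positivity) (by positivity)
        (pow_le_pow_left₀ hd.le h1 2))
  refine le_trans ?_ (av_mono hpt)
  rw [av_sub, av_sub, av_mul_left, av_mul_left, av_sum, av_sum (range t)]
  have h1 := (hadd fun _ u => (du u : ℝ)).1
  simp only [av_du, sum_const, card_range, nsmul_eq_mul] at h1
  rw [av_sum] at h1
  have h2 : ∀ j : Fin m, av (fun ω : Fin m × Fin M × Fin M × Fin M → Fin D =>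
      ((xs (hist (sel t M) ω (t * t)) (t * t) j : ℝ) - t * t * (3 * pp m D)) ^ 2) ≤
      t * ((3 * m) ^ 2 * β) := by
    intro j
    have h3 := (hadd fun _ u => (dx u j : ℝ)).2
    simp only [av_dx, sum_const, card_range, nsmul_eq_mul] at h3
    have h4 := av_sq_le (fun u : Win m → Fin D => dx u j) fun u => (dx_le u j).2
    unfold xs
    push_cast at h3 ⊢
    refine h3.trans ?_
    have h5 := mul_le_mul_of_nonneg_left h4 (by positivity : (0 : ℝ) ≤ t * t)
    have h6 := mul_le_mul_of_nonneg_left hβ (by positivity : (0 : ℝ) ≤ t * (3 * m) ^ 2)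
    linarith
  have h3 : ∀ (κ : ℕ) (j : Fin m), av (fun ω : Fin m × Fin M × Fin M × Fin M → Fin D =>
      ((ys t (hist (sel t M) ω (t * t)) (t * t) κ j : ℝ) - c κ * (3 * pp m D)) ^ 2) ≤
      (3 * m) ^ 2 * β := by
    intro κ j
    have h4 := (hadd fun k u => if k % t = κ then (dy u j : ℝ) else 0).2
    have h5 : ∀ k, av (fun u : Win m → Fin D => if k % t = κ then (dy u j : ℝ) else 0) =
        if k % t = κ then 3 * pp m D else 0 := by
      intro k
      split_ifs
      · exact av_dy j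
      · exact av_const 0
    have h6 : ∀ k, av (fun u : Win m → Fin D => (if k % t = κ then (dy u j : ℝ) else 0) ^ 2) ≤
        if k % t = κ then (3 * m) ^ 2 * pp m D else 0 := by
      intro k
      split_ifs
      · exact av_sq_le (fun u : Win m → Fin D => dy u j) fun u => (dy_le u j).2
      · simp [av]
    have h7 : ∀ z : ℝ, ∑ k ∈ range (t * t), (if k % t = κ then z else 0) = c κ * z := by
      intro z
      rw [← sum_filter]
      simp [hc]
    simp only [h5, h7] at h4
    have h8 := sum_le_sum fun k (_ : k ∈ range (t * t)) => h6 k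
    rw [h7] at h8
    unfold ys
    push_cast
    refine h4.trans (h8.trans ?_)
    have h9 := mul_le_mul_of_nonneg_left (hcp κ) (by positivity : (0 : ℝ) ≤ (3 * m) ^ 2)
    linarith
  rw [h1, av_sum]
  have h4 := sum_le_sum fun j (_ : j ∈ univ) => h2 j
  have h5 : ∑ κ ∈ range t, av (fun ω : Fin m × Fin M × Fin M × Fin M → Fin D =>
      ∑ j, ((ys t (hist (sel t M) ω (t * t)) (t * t) κ j : ℝ) - c κ * (3 * pp m D)) ^ 2) ≤
      t * (m * ((3 * m) ^ 2 * β)) := by
    have h6 : ∀ κ, av (fun ω : Fin m × Fin M × Fin M × Fin M → Fin D =>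
      ∑ j, ((ys t (hist (sel t M) ω (t * t)) (t * t) κ j : ℝ) - c κ * (3 * pp m D)) ^ 2) ≤
        m * ((3 * m) ^ 2 * β) := by
      intro κ
      rw [av_sum]
      simpa using sum_le_sum fun j (_ : j ∈ univ) => h3 κ j
    simpa using sum_le_sum fun κ (_ : κ ∈ range t) => h6 κ
  simp only [sum_const, card_univ, Fintype.card_fin, nsmul_eq_mul] at h4
  have h7 := mul_le_mul_of_nonneg_left h4 (by positivity : 0 ≤ e / t)
  have h8 := mul_le_mul_of_nonneg_left h5 he0
  have h9 : e / t * (m * (t * ((3 * m) ^ 2 * β))) = m * (3 * m) ^ 2 * β * e := by field_simp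
  have h10 : 0 ≤ m * (3 * m) ^ 2 * β * e := by positivity
  push_cast
  nlinarith

end Pool.Agent.H116Z.LCP
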