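import Pool.Agent.H116Z.LCP.Greedy

set_option autoImplicit false
set_option linter.unusedSectionVars false
set_option linter.unusedVariables false

/-!
Choice of the parameters: the expected longest common pattern exceeds `2.05 n^(m/(2m-1))`.
-/

namespace Pool.Agent.H116Z.LCP

open Finset Filter

lemma fact_bound (m : ℕ) : 4 * 27 ^ (m + 1) * ((2 * (m + 1)).factorial * (m + 1).factorial) ≤
    9 * (m + 1) * 4 ^ (m + 1) * (3 * (m + 1)).factorial := by
  induction m with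
  | zero => decide
  | succ k ih =>
    set m := k + 1 with hm
    have e1 : (2 * (m + 1)).factorial = (2 * m + 2) * ((2 * m + 1) * (2 * m).factorial) := by
      rw [show 2 * (m + 1) = 2 * m + 1 + 1 by ring, Nat.factorial_succ, Nat.factorial_succ]
    have e2 : (3 * (m + 1)).factorial =
        (3 * m + 3) * ((3 * m + 2) * ((3 * m + 1) * (3 * m).factorial)) := by
      rw [show 3 * (m + 1) = 3 * m + 1 + 1 + 1 by ring, Nat.factorial_succ, Nat.factorial_succ,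
        Nat.factorial_succ]
    rw [e1, e2, Nat.factorial_succ m]
    have h1 := Nat.mul_le_mul_left (27 * (2 * m + 2) * (2 * m + 1) * (m + 1)) ih
    have h2 : 27 * (2 * m + 2) * (2 * m + 1) * (m + 1) * m ≤
        4 * (m + 1) * ((3 * m + 3) * (3 * m + 2) * (3 * m + 1)) := by
      have : 4 * (m + 1) * ((3 * m + 3) * (3 * m + 2) * (3 * m + 1)) =
        27 * (2 * m + 2) * (2 * m + 1) * (m + 1) * m + (m + 1) * (m + 1) * (54 * m + 24) := by ring
      omega
    have h3 := Nat.mul_le_mul_right (9 * 4 ^ m * (3 * m).factorial) h2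
    calc _ = 27 * (2 * m + 2) * (2 * m + 1) * (m + 1) *
          (4 * 27 ^ m * ((2 * m).factorial * m.factorial)) := by ring
      _ ≤ _ := h1
      _ = 27 * (2 * m + 2) * (2 * m + 1) * (m + 1) * m * (9 * 4 ^ m * (3 * m).factorial) := by ring
      _ ≤ _ := h3
      _ = _ := by ring

lemma Comp_bound {m : ℕ} (hm : 0 < m) : (27 / 4 : ℝ) ^ m ≤ 7 * m * (Comp m).card := by
  obtain ⟨k, rfl⟩ : ∃ k, m = k + 1 := ⟨m - 1, by omega⟩
  have h1 := fact_bound k
  set m := k + 1 with hm'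
  have h2 := Nat.choose_mul_factorial_mul_factorial (n := 3 * m) (k := 2 * m) (by omega)
  rw [show 3 * m - 2 * m = m by omega] at h2
  have h3 := Nat.choose_mul_succ_eq (m + 2 * m - 1) (2 * m)
  rw [show m + 2 * m - 1 + 1 = 3 * m by omega, show 3 * m - 2 * m = m by omega,
    ← card_Comp] at h3
  have h4 : (3 * m).choose (2 * m) = 3 * (Comp m).card :=
    Nat.eq_of_mul_eq_mul_right hm (by rw [← h3]; ring)
  rw [← h2, h4] at h1
  have h5 : 4 * 27 ^ m ≤ 27 * m * 4 ^ m * (Comp m).card := by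
    refine Nat.le_of_mul_le_mul_right (h1.trans_eq ?_)
      (Nat.mul_pos (Nat.factorial_pos (2 * m)) (Nat.factorial_pos m))
    ring
  have h6 : (4 * 27 ^ m : ℝ) ≤ 27 * m * 4 ^ m * (Comp m).card := by exact_mod_cast h5
  rw [div_pow, div_le_iff₀ (by positivity)]
  have h7 : (0 : ℝ) ≤ m * 4 ^ m * (Comp m).card := by positivity
  nlinarith

lemma tail_ratio (D ν : ℕ) (hD : 0 < D) (hν : 0 < ν) :
    (1 + (1 / 100 : ℝ) / D) ^ (D * (100 * ν)) / (1 + 1 / 100) ^ (103 * ν) ≤ 50 / ν := by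
  have hD' : (0 : ℝ) < D := by exact_mod_cast hD
  have hν' : (0 : ℝ) < ν := by exact_mod_cast hν
  have h1 : (1 + (1 / 100 : ℝ) / D) ^ (D * (100 * ν)) ≤ Real.exp 1 ^ ν := by
    calc _ ≤ Real.exp ((1 / 100 : ℝ) / D) ^ (D * (100 * ν)) :=
          pow_le_pow_left₀ (by positivity) (by linarith [Real.add_one_le_exp ((1 / 100 : ℝ) / D)]) _
      _ = _ := by
          rw [← Real.exp_nat_mul, ← Real.exp_nat_mul]
          congr 1
          push_cast
          field_simp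
  have h2 : Real.exp 1 * (1 + 1 / 50) ≤ (1 + 1 / 100 : ℝ) ^ 103 := by
    have := Real.exp_one_lt_d9
    have h3 : (2.7182818286 : ℝ) * (1 + 1 / 50) ≤ (1 + 1 / 100 : ℝ) ^ 103 := by norm_num
    linarith
  have h4 : Real.exp 1 ^ ν * (1 + ν * (1 / 50)) ≤ (1 + 1 / 100 : ℝ) ^ (103 * ν) := by
    rw [pow_mul]
    refine le_trans ?_ (pow_le_pow_left₀ (by positivity) h2 ν)
    rw [mul_pow]
    exact mul_le_mul_of_nonneg_left (one_add_mul_le_pow (by norm_num) ν) (by positivity)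
  rw [div_le_div_iff₀ (by positivity) hν']
  have h5 : 0 < Real.exp 1 ^ ν := by positivity
  nlinarith [mul_le_mul_of_nonneg_right h1 hν'.le]

lemma main_bound {m : ℕ} (hm : 2 ≤ m) (hbig : (49 * 10 ^ 14 * m ^ 8 : ℝ) ≤ 1.044 ^ m) (d : ℕ)
    (hd : 11000 * m ^ 3 ≤ d) : ∃ n : ℕ, d ≤ n ∧
      2.05 ≤ av (fun π : Fin m → Equiv.Perm (Fin n) => (Lp π : ℝ)) /
        (n : ℝ) ^ ((m : ℝ) / (2 * (m : ℝ) - 1)) := by
  have hm0 : 0 < m := by omega
  have hm1 : (1 : ℝ) ≤ m := by exact_mod_cast hm0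
  have hCb := Comp_bound hm0
  set N := (Comp m).card with hN
  have hN0 : 0 < N := by
    by_contra h
    have h0 : N = 0 := by omega
    rw [h0] at hCb
    have : (0 : ℝ) < (27 / 4) ^ m := by positivity
    simp at hCb
    linarith
  have hm3 : 0 < m ^ 3 := by positivity
  have hd0 : 0 < d := by omega
  obtain ⟨D, hD⟩ : ∃ D, D = N ^ 2 * d := ⟨_, rfl⟩
  have hdD : d ≤ D := by rw [hD]; exact Nat.le_mul_of_pos_left _ (by positivity)
  have hD0 : 0 < D := by omega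
  have : NeZero D := ⟨hD0.ne'⟩
  obtain ⟨β, hβ⟩ : ∃ β, β = 10 ^ 7 * m ^ 3 := ⟨_, rfl⟩
  obtain ⟨t', ht'⟩ : ∃ t', t' = β * d * D ^ (m - 2) := ⟨_, rfl⟩
  obtain ⟨t, ht⟩ : ∃ t, t = D * t' := ⟨_, rfl⟩
  obtain ⟨H₀, hH₀⟩ : ∃ H₀, H₀ = 303000 * m ^ 3 := ⟨_, rfl⟩
  obtain ⟨H, hH⟩ : ∃ H, H = 100 * H₀ := ⟨_, rfl⟩
  obtain ⟨ν, hν⟩ : ∃ ν, ν = t * t' * H₀ * (H + 3 * m) := ⟨_, rfl⟩
  have hβ0 : 0 < β := by omega
  have ht'0 : 0 < t' := by rw [ht']; positivity
  have ht0 : 0 < t := by rw [ht]; positivity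
  have hH₀0 : 0 < H₀ := by omega
  have hH0 : 0 < H := by omega
  have hνH : H₀ ≤ ν := by
    rw [hν, mul_assoc]
    exact le_trans (Nat.le_mul_of_pos_right _ (by omega))
      (Nat.le_mul_of_pos_left _ (by positivity))
  have hνt : t ≤ ν := by
    rw [hν, mul_assoc, mul_assoc]
    exact Nat.le_mul_of_pos_right _ (by positivity)
  have hDt : D ≤ t := by rw [ht]; exact Nat.le_mul_of_pos_right _ ht'0
  have hν0 : 0 < ν := by omega
  have htN : t * N ^ 2 = β * D ^ m := by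
    have : D ^ m = D ^ (m - 2) * D * D := by
      rw [← pow_succ, ← pow_succ]; congr 1; omega
    rw [this, ht, ht']
    nth_rewrite 5 [hD]
    ring
  refine ⟨104 * ν, by omega, ?_⟩
  have hDr : (11000 * m ^ 3 : ℝ) ≤ D := by exact_mod_cast hd.trans hdD
  have hD1 : (0 : ℝ) < D := by exact_mod_cast hD0
  have hβr : (β : ℝ) = 10 ^ 7 * m ^ 3 := by exact_mod_cast hβ
  have hH₀r : (H₀ : ℝ) = 303000 * m ^ 3 := by exact_mod_cast hH₀
  have hHr : (H : ℝ) = 30300000 * m ^ 3 := by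
    rw [hH]; push_cast; rw [hH₀r]; ring
  have hm3r : (m : ℝ) ≤ m ^ 3 := by nlinarith [sq_nonneg (m : ℝ), mul_nonneg (sq_nonneg (m : ℝ)) (by linarith : (0 : ℝ) ≤ m - 1)]
  have hm30 : (0 : ℝ) < m ^ 3 := by positivity
  have htr : (0 : ℝ) < t := by exact_mod_cast ht0
  have hνr : (0 : ℝ) < ν := by exact_mod_cast hν0
  have hβp : (0 : ℝ) < β := by exact_mod_cast hβ0
  have hx1 : (1 / D : ℝ) ≤ 1 := by rw [div_le_one hD1]; nlinarith
  have hx0 : (0 : ℝ) ≤ 1 / D := by positivity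
  have htp : t * pp m D = β * (1 - 1 / D) ^ (((3 * m) * (3 * m) - 1) * m) := by
    have h1 : (t : ℝ) * N ^ 2 = β * D ^ m := by exact_mod_cast htN
    unfold pp qq
    rw [← hN, ← mul_assoc, h1, mul_pow, ← pow_mul, one_div, inv_pow]
    field_simp
  have htp1 : t * pp m D ≤ β := by
    rw [htp]
    exact mul_le_of_le_one_right hβp.le (pow_le_one₀ (by linarith) (by linarith))
  have htp2 : 0.99 * β ≤ t * pp m D := by
    rw [htp, mul_comm]
    refine mul_le_mul_of_nonneg_left ?_ hβp.le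
    have h1 := one_add_mul_le_pow (a := -(1 / D : ℝ)) (by linarith) (((3 * m) * (3 * m) - 1) * m)
    have h2 : ((((3 * m) * (3 * m) - 1) * m : ℕ) : ℝ) ≤ 9 * m ^ 3 := by
      have : ((3 * m) * (3 * m) - 1) * m ≤ 9 * m ^ 3 :=
        (Nat.mul_le_mul_right m (Nat.sub_le _ _)).trans_eq (by ring)
      exact_mod_cast this
    have h3 : (9 * m ^ 3 : ℝ) * (1 / D) ≤ 0.01 := by
      rw [mul_one_div, div_le_iff₀ hD1]; linarith
    have h4 := mul_le_mul_of_nonneg_right h2 hx0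
    rw [← sub_eq_add_neg] at h1
    linarith
  have hfb := field_bound (D := D) hm0 (H := H) ht0 β htp1 (by rw [hβr, hHr]; linarith)
  have herr : (m * (3 * m) ^ 2 * β * (H / (H - 3 * β) ^ 2) : ℝ) ≤ 0.005 * β := by
    have h1 : (m * (3 * m) ^ 2 * β * (H / (H - 3 * β) ^ 2) : ℝ) = 30300 * m ^ 3 := by
      rw [hβr, hHr, show (30300000 * m ^ 3 - 3 * (10 ^ 7 * m ^ 3) : ℝ) = 300000 * m ^ 3 by ring]
      field_simp
      ring
    rw [h1, hβr]; linarith
  have hX0 : 0 < t * H + t * (3 * m) := by positivity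
  have : Nonempty (Fin (t * H + t * (3 * m))) := ⟨⟨0, hX0⟩⟩
  have : Nonempty (Fin t ×ₗ Fin H) := ⟨toLex (⟨0, ht0⟩, ⟨0, hH0⟩)⟩
  have hcard : Fintype.card (Fin (t * H + t * (3 * m)) × (Fin t ×ₗ Fin H)) = D * (100 * ν) := by
    rw [Fintype.card_prod, Fintype.card_lex, Fintype.card_prod]
    simp only [Fintype.card_fin]
    rw [hν, hH]
    nth_rewrite 3 [ht]
    ring
  have hcmp := compare (C := Fin (t * H + t * (3 * m)) × (Fin t ×ₗ Fin H))
    (fun S : Fin m → Finset _ => (Lc S : ℝ)) (t * H + t * (3 * m))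
    (fun S S' h => by exact_mod_cast Lc_mono hm0 h) (fun S => Nat.cast_nonneg _)
    (fun S => by exact_mod_cast (Lc_le_card hm0 S).trans_eq (Fintype.card_fin _))
    (104 * ν) (103 * ν) D (by omega) (1 / 100) (by norm_num) (0.97 * (t * β)) (by positivity)
    (by
      rw [hcard]
      have h1 := tail_ratio D ν hD0 hν0
      have h2 : (50 / ν : ℝ) ≤ 50 / (303000 * m ^ 3) := by
        refine div_le_div_of_nonneg_left (by norm_num) (by positivity) ?_
        rw [← hH₀r]; exact_mod_cast hνH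
      have h3 : (m * (50 / (303000 * m ^ 3)) : ℝ) ≤ 0.001 := by
        rw [← mul_div_assoc, div_le_iff₀ (by positivity)]; linarith
      have h4 := (mul_le_mul_of_nonneg_left (h1.trans h2) (by linarith : (0 : ℝ) ≤ m)).trans h3
      have h5 : (t * H + t * (3 * m) : ℝ) ≤ 4 * (t * β) := by
        rw [hβr, hHr]; nlinarith
      have h6 := mul_le_mul h5 h4 (by positivity) (by positivity)
      have h7 := mul_le_mul_of_nonneg_left herr htr.le
      have h8 := mul_le_mul_of_nonneg_left htp2 htr.le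
      have h9 : (0 : ℝ) < t * β := by positivity
      linarith)
  have hE := hcmp.trans (av_Lc_le_av_Lp hm0 (104 * ν))
  rw [hcard] at hE
  have hfac : (m * (((104 * ν : ℕ) : ℝ) ^ 2 / ((D * (100 * ν) : ℕ) : ℝ) /
      (((104 * ν : ℕ) : ℝ) - ((103 * ν : ℕ) : ℝ))) : ℝ) ≤ 0.01 := by
    have h1 : (m * (((104 * ν : ℕ) : ℝ) ^ 2 / ((D * (100 * ν) : ℕ) : ℝ) /
      (((104 * ν : ℕ) : ℝ) - ((103 * ν : ℕ) : ℝ))) : ℝ) = 108.16 * m / D := by
      push_cast
      rw [show (104 * ν - 103 * ν : ℝ) = ν by ring]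
      field_simp
      ring
    rw [h1, div_le_iff₀ hD1]; linarith
  have hE2 : 0.96 * (t * β) ≤ av (fun π : Fin m → Equiv.Perm (Fin (104 * ν)) => (Lp π : ℝ)) := by
    refine le_trans ?_ hE
    have h9 : (0 : ℝ) < t * β := by positivity
    have h10 := mul_le_mul_of_nonneg_left (sub_le_sub_left hfac 1)
      (by positivity : (0 : ℝ) ≤ 0.97 * (t * β))
    linarith
  have hn0 : (0 : ℝ) < ((104 * ν : ℕ) : ℝ) := by positivity
  rw [le_div_iff₀ (Real.rpow_pos_of_pos hn0 _)]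
  obtain ⟨r, hr⟩ : ∃ r, 2 * m = r + 1 := ⟨2 * m - 1, by omega⟩
  have hr0 : r ≠ 0 := by omega
  have hrr : (2 * (m : ℝ) - 1) = r := by
    have : (2 * m : ℝ) = r + 1 := by exact_mod_cast hr
    linarith
  have hkey : ((104 * ν : ℕ) : ℝ) ^ m ≤ (0.96 / 2.05 * (t * β)) ^ r := by
    have hNr : (0 : ℝ) < N := by exact_mod_cast hN0
    have h1 : (t : ℝ) * N ^ 2 = β * D ^ m := by exact_mod_cast htN
    have h2 : ((104 * ν : ℕ) : ℝ) * D = 104 * H₀ * (H + 3 * m) * t ^ 2 := by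
      have : 104 * ν * D = 104 * H₀ * (H + 3 * m) * t ^ 2 := by
        rw [hν, sq]
        nth_rewrite 3 [ht]
        ring
      exact_mod_cast this
    have h3 : (104 * H₀ * (H + 3 * m) : ℝ) ≤ 9.56 * β ^ 2 := by
      rw [hβr, hHr, hH₀r]; nlinarith
    have h4 : (β : ℝ) ^ 2 * 9.56 ^ m ≤ 0.2192 ^ m * N ^ 2 := by
      have h5 : ((27 / 4 : ℝ) ^ m) ^ 2 ≤ (7 * m * N) ^ 2 := pow_le_pow_left₀ (by positivity) hCb 2
      have h6 : (1.044 : ℝ) ^ m * 9.56 ^ m ≤ 0.2192 ^ m * ((27 / 4 : ℝ) ^ m) ^ 2 := by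
        rw [← pow_mul, mul_comm m 2, pow_mul, ← mul_pow, ← mul_pow]
        exact pow_le_pow_left₀ (by norm_num) (by norm_num) m
      have h7 := mul_le_mul_of_nonneg_right hbig (by positivity : (0 : ℝ) ≤ 9.56 ^ m)
      have h8 := mul_le_mul_of_nonneg_left h5 (by positivity : (0 : ℝ) ≤ 0.2192 ^ m)
      have h9 := h7.trans (h6.trans h8)
      refine le_of_mul_le_mul_left ?_ (by positivity : (0 : ℝ) < 49 * m ^ 2)
      rw [hβr]
      calc _ = (49 * 10 ^ 14 * m ^ 8 : ℝ) * 9.56 ^ m := by ring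
        _ ≤ _ := h9
        _ = _ := by ring
    have h10 : (0.2192 : ℝ) ^ m ≤ (0.96 / 2.05) ^ r := by
      calc (0.2192 : ℝ) ^ m ≤ ((0.96 / 2.05) ^ 2) ^ m :=
            pow_le_pow_left₀ (by norm_num) (by norm_num) m
        _ = (0.96 / 2.05) ^ (r + 1) := by rw [← pow_mul, hr]
        _ ≤ _ := pow_le_pow_of_le_one (by norm_num) (by norm_num) (Nat.le_succ r)
    refine le_of_mul_le_mul_right ?_ (by positivity : (0 : ℝ) < t * N ^ 2 * β)
    calc ((104 * ν : ℕ) : ℝ) ^ m * (t * N ^ 2 * β)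
        = (β : ℝ) ^ 2 * (((104 * ν : ℕ) : ℝ) * D) ^ m := by rw [h1, mul_pow]; ring
      _ ≤ (β : ℝ) ^ 2 * (9.56 * β ^ 2 * t ^ 2) ^ m := by
          rw [h2]
          exact mul_le_mul_of_nonneg_left (pow_le_pow_left₀ (by positivity)
            (mul_le_mul_of_nonneg_right h3 (by positivity)) m) (by positivity)
      _ = ((β : ℝ) ^ 2 * 9.56 ^ m) * (t * β) ^ (r + 1) := by
          rw [← hr, pow_mul, mul_assoc (9.56 : ℝ), mul_pow (9.56 : ℝ)]
          ring
      _ ≤ ((0.96 / 2.05 : ℝ) ^ r * N ^ 2) * (t * β) ^ (r + 1) :=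
          mul_le_mul_of_nonneg_right
            (h4.trans (mul_le_mul_of_nonneg_right h10 (by positivity))) (by positivity)
      _ = _ := by rw [mul_pow (0.96 / 2.05 : ℝ), pow_succ]; ring
  have hrp : ((104 * ν : ℕ) : ℝ) ^ ((m : ℝ) / (2 * (m : ℝ) - 1)) ≤ 0.96 / 2.05 * (t * β) := by
    rw [hrr, div_eq_mul_inv, Real.rpow_mul hn0.le, Real.rpow_natCast]
    refine (Real.rpow_le_rpow (by positivity) hkey (by positivity)).trans_eq ?_
    exact Real.pow_rpow_inv_natCast (by positivity) hr0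
  linarith

lemma eventually_big : ∀ᶠ m : ℕ in atTop, (49 * 10 ^ 14 * m ^ 8 : ℝ) ≤ 1.044 ^ m := by
  have h := tendsto_pow_const_div_const_pow_of_one_lt 8 (r := 1.044) (by norm_num)
  filter_upwards [h.eventually (ge_mem_nhds (show (0 : ℝ) < 1 / (49 * 10 ^ 14) by norm_num))] with m hm
  rw [div_le_div_iff₀ (by positivity) (by positivity)] at hm
  linarith

theorem not_two : ¬ (∃ f : ℕ → ℝ,
    (∀ᶠ m in atTop, Tendsto (fun n : ℕ =>
      av (fun π : Fin m → Equiv.Perm (Fin n) => (Lp π : ℝ))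
        / (n : ℝ) ^ ((m : ℝ) / (2 * (m : ℝ) - 1))) atTop (nhds (f m)))
    ∧ Tendsto f atTop (nhds 2)) := by
  rintro ⟨f, h1, h2⟩
  obtain ⟨m, hm1, hm2, hm3, hm4⟩ := (h1.and ((h2.eventually (gt_mem_nhds
    (show (2 : ℝ) < 2.05 by norm_num))).and (eventually_big.and (eventually_ge_atTop 2)))).exists
  obtain ⟨n₀, hn₀⟩ := eventually_atTop.mp (hm1.eventually (gt_mem_nhds hm2))
  obtain ⟨n, hn, h⟩ := main_bound hm4 hm3 (max n₀ (11000 * m ^ 3)) (le_max_right _ _)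
  exact absurd h (hn₀ n ((le_max_left _ _).trans hn)).not_ge

end Pool.Agent.H116Z.LCP
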