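import Pool.Agent.H116Z.LCP.Red

set_option autoImplicit false
set_option linter.unusedSectionVars false
set_option linter.unusedVariables false

/-!
One step of the greedy search: a window in each field, with exactly one occupied cell, placed so
that the horizontal and the vertical offsets have prescribed sums.
-/

namespace Pool.Agent.H116Z.LCP

open Finset

/-- offset vectors with sum `2 m` -/
def Comp (m : ℕ) : Finset (Fin m → ℕ) := piAntidiag univ (2 * m)

lemma mem_Comp {m : ℕ} {a : Fin m → ℕ} : a ∈ Comp m ↔ ∑ j, a j = 2 * m := by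
  simp [Comp]

lemma Comp_lt {m : ℕ} {a : Fin m → ℕ} (ha : a ∈ Comp m) (j : Fin m) : a j < 3 * m := by
  have h1 := single_le_sum (f := a) (fun _ _ => Nat.zero_le _) (mem_univ j)
  rw [mem_Comp.mp ha] at h1
  have := j.pos
  omega

lemma card_Comp (m : ℕ) : (Comp m).card = (m + 2 * m - 1).choose (2 * m) := by
  have h := card_finsuppAntidiag_nat_eq_choose (s := (univ : Finset (Fin m))) (2 * m)
  simp only [card_univ, Fintype.card_fin] at h
  rw [← h]
  symm
  refine card_bij (fun f _ => ⇑f) ?_ ?_ ?_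
  · intro f hf
    rw [mem_Comp]
    exact (mem_finsuppAntidiag.mp hf).1
  · intro f _ g _ h
    exact DFunLike.coe_injective h
  · intro a ha
    refine ⟨Finsupp.equivFunOnFinite.symm a, ?_, rfl⟩
    rw [mem_finsuppAntidiag]
    exact ⟨by simpa using mem_Comp.mp ha, subset_univ _⟩

lemma sum_Comp {m : ℕ} (j : Fin m) : ∑ a ∈ Comp m, (a j + 1) = 3 * (Comp m).card := by
  have h1 : ∀ j' : Fin m, ∑ a ∈ Comp m, a j' = ∑ a ∈ Comp m, a j := by
    intro j'
    refine sum_nbij' (fun a => a ∘ Equiv.swap j j') (fun a => a ∘ Equiv.swap j j') ?_ ?_ ?_ ?_ ?_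
    · intro a ha
      rw [mem_Comp] at ha ⊢
      rw [← ha]
      exact Equiv.sum_comp (Equiv.swap j j') a
    · intro a ha
      rw [mem_Comp] at ha ⊢
      rw [← ha]
      exact Equiv.sum_comp (Equiv.swap j j') a
    · intro a _; funext i; simp
    · intro a _; funext i; simp
    · intro a _; simp
  have h2 : ∑ j' : Fin m, ∑ a ∈ Comp m, a j' = (Comp m).card * (2 * m) := by
    rw [sum_comm, sum_congr rfl fun a ha => mem_Comp.mp ha]
    simp
  simp only [h1, sum_const, card_univ, Fintype.card_fin, smul_eq_mul] at h2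
  have h3 : ∑ a ∈ Comp m, a j = 2 * (Comp m).card := by
    refine Nat.eq_of_mul_eq_mul_left j.pos ?_
    rw [h2]; ring
  rw [sum_add_distrib, h3]
  simp
  ring

/-- index set of the windows read in one step -/
abbrev Win (m : ℕ) : Type := Fin m × Fin (3 * m) × Fin (3 * m)

variable {m D : ℕ} [NeZero D]

/-- in each window exactly the cell `(a j, c j)` is occupied -/
def Suc (u : Win m → Fin D) (a c : Fin m → ℕ) : Prop :=
  ∀ q : Win m, u q = 0 ↔ ((q.2.1 : ℕ) = a q.1 ∧ (q.2.2 : ℕ) = c q.1)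

lemma Suc.unique {u : Win m → Fin D} {a c a' c' : Fin m → ℕ} (ha : a ∈ Comp m) (hc : c ∈ Comp m)
    (h : Suc u a c) (h' : Suc u a' c') : a' = a ∧ c' = c := by
  have : ∀ j, a j = a' j ∧ c j = c' j := fun j =>
    (h' (j, ⟨a j, Comp_lt ha j⟩, ⟨c j, Comp_lt hc j⟩)).mp ((h _).mpr ⟨rfl, rfl⟩)
  exact ⟨funext fun j => (this j).1.symm, funext fun j => (this j).2.symm⟩

open Classical in
/-- the value of `F` at the successful offsets, zero if there are none -/
noncomputable def val (F : (Fin m → ℕ) → (Fin m → ℕ) → ℕ) (u : Win m → Fin D) : ℕ :=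
  ∑ a ∈ Comp m, ∑ c ∈ Comp m, if Suc u a c then F a c else 0

lemma val_of_suc (F : (Fin m → ℕ) → (Fin m → ℕ) → ℕ) {u : Win m → Fin D} {a c : Fin m → ℕ}
    (ha : a ∈ Comp m) (hc : c ∈ Comp m) (h : Suc u a c) : val F u = F a c := by
  unfold val
  rw [sum_eq_single_of_mem a ha, sum_eq_single_of_mem c hc, if_pos h]
  · intro c' _ hne
    rw [if_neg fun h' => hne (h.unique ha hc h').2]
  · intro a' _ hne
    exact sum_eq_zero fun c' _ => if_neg fun h' => hne (h.unique ha hc h').1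

lemma val_of_not (F : (Fin m → ℕ) → (Fin m → ℕ) → ℕ) {u : Win m → Fin D}
    (h : ¬ ∃ a ∈ Comp m, ∃ c ∈ Comp m, Suc u a c) : val F u = 0 :=
  sum_eq_zero fun a ha => sum_eq_zero fun c hc => if_neg fun h' => h ⟨a, ha, c, hc, h'⟩

/-- probability of one pair of offsets -/
noncomputable def qq (m D : ℕ) : ℝ := ((1 / D : ℝ) * (1 - 1 / D) ^ ((3 * m) * (3 * m) - 1)) ^ m

open Classical in
lemma av_suc {a c : Fin m → ℕ} (ha : a ∈ Comp m) (hc : c ∈ Comp m) :
    av (fun u : Win m → Fin D => if Suc u a c then (1 : ℝ) else 0) = qq m D := by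
  have h1 : ∀ u : Win m → Fin D, (if Suc u a c then (1 : ℝ) else 0) =
      ∏ q : Win m, if (u q = 0 ↔ ((q.2.1 : ℕ) = a q.1 ∧ (q.2.2 : ℕ) = c q.1)) then 1 else 0 := by
    intro u
    rw [prod_boole]
    simp [Suc]
  simp only [h1]
  rw [av_pi_prod (fun (q : Win m) (x : Fin D) =>
    if (x = 0 ↔ ((q.2.1 : ℕ) = a q.1 ∧ (q.2.2 : ℕ) = c q.1)) then (1 : ℝ) else 0)]
  have h2 : av (fun x : Fin D => if x = 0 then (1 : ℝ) else 0) = 1 / D := by simp [av]
  have h3 : av (fun x : Fin D => if ¬ x = 0 then (1 : ℝ) else 0) = 1 - 1 / D := by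
    have : (fun x : Fin D => if ¬ x = 0 then (1 : ℝ) else 0) =
        fun x => 1 - if x = 0 then (1 : ℝ) else 0 := by
      funext x; by_cases hx : x = 0 <;> simp [hx]
    rw [this, av_sub, av_const, h2]
  rw [Fintype.prod_prod_type, qq, ← Fin.prod_const]
  refine prod_congr rfl fun j _ => ?_
  let z : Fin (3 * m) × Fin (3 * m) := (⟨a j, Comp_lt ha j⟩, ⟨c j, Comp_lt hc j⟩)
  rw [← mul_prod_erase univ _ (mem_univ z)]
  congr 1
  · simpa [z] using h2
  · rw [prod_congr rfl (g := fun _ => 1 - 1 / (D : ℝ))]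
    · simp
    · intro y hy
      have hy' : ¬ ((y.1 : ℕ) = a j ∧ (y.2 : ℕ) = c j) := by
        rintro ⟨h4, h5⟩
        exact (mem_erase.mp hy).1 (Prod.ext (Fin.ext h4) (Fin.ext h5))
      simpa [hy'] using h3

lemma av_val (F : (Fin m → ℕ) → (Fin m → ℕ) → ℕ) :
    av (fun u : Win m → Fin D => (val F u : ℝ)) =
      ((∑ a ∈ Comp m, ∑ c ∈ Comp m, F a c : ℕ) : ℝ) * qq m D := by
  classical
  unfold val
  push_cast
  rw [av_sum, sum_mul]
  refine sum_congr rfl fun a ha => ?_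
  rw [av_sum, sum_mul]
  refine sum_congr rfl fun c hc => ?_
  rw [← av_suc ha hc (D := D), ← av_mul_left]
  congr 1
  funext u
  split_ifs <;> simp

/-- horizontal advance -/
noncomputable def dx (u : Win m → Fin D) (j : Fin m) : ℕ := val (fun a _ => a j + 1) u
/-- vertical advance -/
noncomputable def dy (u : Win m → Fin D) (j : Fin m) : ℕ := val (fun _ c => c j + 1) u
/-- success indicator -/
noncomputable def du (u : Win m → Fin D) : ℕ := val (fun _ _ => 1) u

/-- success probability -/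
noncomputable def pp (m D : ℕ) : ℝ := ((Comp m).card : ℝ) ^ 2 * qq m D

lemma av_du : av (fun u : Win m → Fin D => (du u : ℝ)) = pp m D := by
  unfold du pp
  rw [av_val]
  simp [sq]

lemma av_dx (j : Fin m) : av (fun u : Win m → Fin D => (dx u j : ℝ)) = 3 * pp m D := by
  unfold dx pp
  rw [av_val, sum_comm]
  simp only [sum_Comp, sum_const, smul_eq_mul]
  push_cast
  ring

lemma av_dy (j : Fin m) : av (fun u : Win m → Fin D => (dy u j : ℝ)) = 3 * pp m D := by
  unfold dy pp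
  rw [av_val]
  simp only [sum_Comp, sum_const, smul_eq_mul]
  push_cast
  ring

lemma dich (u : Win m → Fin D) :
    (du u = 0 ∧ (∀ j, dx u j = 0) ∧ ∀ j, dy u j = 0) ∨
    (du u = 1 ∧ ∀ j, ∃ a c : Fin (3 * m), dx u j = a + 1 ∧ dy u j = c + 1 ∧ u (j, a, c) = 0) := by
  by_cases h : ∃ a ∈ Comp m, ∃ c ∈ Comp m, Suc u a c
  · obtain ⟨a, ha, c, hc, h⟩ := h
    exact Or.inr ⟨val_of_suc _ ha hc h, fun j => ⟨⟨a j, Comp_lt ha j⟩, ⟨c j, Comp_lt hc j⟩,
      val_of_suc _ ha hc h, val_of_suc _ ha hc h, (h _).mpr ⟨rfl, rfl⟩⟩⟩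
  · exact Or.inl ⟨val_of_not _ h, fun j => val_of_not _ h, fun j => val_of_not _ h⟩

lemma dx_le (u : Win m → Fin D) (j : Fin m) : du u ≤ dx u j ∧ dx u j ≤ 3 * m * du u := by
  rcases dich u with ⟨h1, h2, -⟩ | ⟨h1, h2⟩
  · simp [h1, h2]
  · obtain ⟨a, c, h3, -, -⟩ := h2 j
    have := a.2
    rw [h1, h3]; omega

lemma dy_le (u : Win m → Fin D) (j : Fin m) : du u ≤ dy u j ∧ dy u j ≤ 3 * m * du u := by
  rcases dich u with ⟨h1, -, h2⟩ | ⟨h1, h2⟩
  · simp [h1, h2]
  · obtain ⟨a, c, -, h3, -⟩ := h2 j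
    have := c.2
    rw [h1, h3]; omega

lemma du_le (u : Win m → Fin D) : du u ≤ 1 := by
  rcases dich u with ⟨h1, -⟩ | ⟨h1, -⟩ <;> omega

lemma av_sq_le (f : (Win m → Fin D) → ℕ) (hf : ∀ u, f u ≤ 3 * m * du u) :
    av (fun u : Win m → Fin D => (f u : ℝ) ^ 2) ≤ (3 * m) ^ 2 * pp m D := by
  rw [← av_du, ← av_mul_left]
  refine av_mono fun u => ?_
  have h1 : f u ^ 2 ≤ (3 * m) ^ 2 * du u := by
    have h2 := hf u
    have h3 := du_le u
    interval_cases du u
    · simp at h2; simp [h2]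
    · simpa using Nat.pow_le_pow_left h2 2
  exact_mod_cast h1

lemma pp_nonneg : 0 ≤ pp m D := by
  rw [← av_du]
  exact av_nonneg fun _ => Nat.cast_nonneg _

end Pool.Agent.H116Z.LCP
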