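import Pool.Agent.H116Z.LCP.Av

set_option autoImplicit false
set_option linter.unusedSectionVars false
set_option linter.unusedVariables false

/-!
Common patterns of sets of grid cells; from random permutations to independent cells.
-/

namespace Pool.Agent.H116Z.LCP

open Finset

section pat

variable {m : ℕ} {A B : Type} [LinearOrder A] [LinearOrder B] [Fintype A] [Fintype B]

/-- the sets `S j` of cells contain a common pattern of length `k` -/
def Pat (S : Fin m → Finset (A × B)) (k : ℕ) : Prop :=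
  ∃ (T : Finset ℕ) (key : ℕ → ℕ) (P : Fin m → ℕ → A × B), T.card = k ∧ Set.InjOn key T ∧
    (∀ j, ∀ i ∈ T, P j i ∈ S j) ∧
    (∀ j, ∀ i ∈ T, ∀ i' ∈ T, i < i' → (P j i).1 < (P j i').1) ∧
    (∀ j, ∀ i ∈ T, ∀ i' ∈ T, key i < key i' → (P j i).2 < (P j i').2)

/-- longest common pattern of sets of cells -/
noncomputable def Lc (S : Fin m → Finset (A × B)) : ℕ := sSup {k | Pat S k}

lemma Pat.le_card (hm : 0 < m) {S : Fin m → Finset (A × B)} {k : ℕ} (h : Pat S k) :
    k ≤ Fintype.card A := by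
  obtain ⟨T, key, P, rfl, -, -, h1, -⟩ := h
  rw [← card_univ]
  refine card_le_card_of_injOn (fun i => (P ⟨0, hm⟩ i).1) (fun _ _ => by simp) ?_
  intro i hi i' hi' he
  rcases lt_trichotomy i i' with h | h | h
  · exact absurd he (h1 _ i hi i' hi' h).ne
  · exact h
  · exact absurd he (h1 _ i' hi' i hi h).ne'

lemma bdd_pat (hm : 0 < m) (S : Fin m → Finset (A × B)) : BddAbove {k | Pat S k} :=
  ⟨Fintype.card A, fun _ h => Pat.le_card hm h⟩

lemma Pat.le_Lc (hm : 0 < m) {S : Fin m → Finset (A × B)} {k : ℕ} (h : Pat S k) : k ≤ Lc S :=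
  le_csSup (bdd_pat hm S) h

lemma Lc_le_of {S : Fin m → Finset (A × B)} {c : ℕ} (h : ∀ k, Pat S k → k ≤ c) : Lc S ≤ c :=
  csSup_le' h

lemma Lc_le_card (hm : 0 < m) (S : Fin m → Finset (A × B)) : Lc S ≤ Fintype.card A :=
  Lc_le_of fun _ h => h.le_card hm

lemma Lc_mono (hm : 0 < m) {S S' : Fin m → Finset (A × B)} (h : ∀ j, S j ⊆ S' j) :
    Lc S ≤ Lc S' := by
  refine Lc_le_of fun k hk => Pat.le_Lc hm ?_
  obtain ⟨T, key, P, h0, h1, h2, h3, h4⟩ := hk
  exact ⟨T, key, P, h0, h1, fun j i hi => h j (h2 j i hi), h3, h4⟩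

/-- longest common pattern of permutations -/
noncomputable def Lp {n : ℕ} (π : Fin m → Equiv.Perm (Fin n)) : ℕ :=
  sSup {k : ℕ | ∃ σ : Equiv.Perm (Fin k), ∀ i : Fin m, ∃ e : Fin k ↪o Fin n,
    ∀ a b : Fin k, σ a < σ b ↔ π i (e a) < π i (e b)}

lemma Lc_le_Lp (hm : 0 < m) {n : ℕ} (ω : Fin m → Fin n → A × B)
    (g : Fin m → Equiv.Perm (Fin n)) :
    Lc (fun j => univ.image fun t => ((ω j (g j t)).1, (ω j t).2)) ≤
      Lp (fun j => (Tuple.sort fun t => (ω j t).2)⁻¹ * (g j)⁻¹ *
        (Tuple.sort fun t => (ω j t).1)) := by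
  classical
  have hai : ∀ {l : ℕ} (σ : Equiv.Perm (Fin l)) (x : Fin l), σ (σ⁻¹ x) = x :=
    fun σ x => σ.apply_symm_apply x
  have hia : ∀ {l : ℕ} (σ : Equiv.Perm (Fin l)) (x : Fin l), σ⁻¹ (σ x) = x :=
    fun σ x => σ.symm_apply_apply x
  refine Lc_le_of fun k hk => le_csSup ?_ ?_
  · refine ⟨n, fun k hk => ?_⟩
    obtain ⟨σ, h⟩ := hk
    obtain ⟨e, -⟩ := h ⟨0, hm⟩
    simpa using Fintype.card_le_of_injective e e.injective
  obtain ⟨T, key, P, h0, h1, h2, h3, h4⟩ := hk
  let ι := T.orderEmbOfFin h0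
  have hι : ∀ a, ι a ∈ T := fun a => T.orderEmbOfFin_mem h0 a
  let s := Tuple.sort fun a => key (ι a)
  have hs : ∀ a b, s⁻¹ a < s⁻¹ b → key (ι a) < key (ι b) := by
    intro a b hab
    have h5 := Tuple.monotone_sort (fun a => key (ι a)) hab.le
    simp only [Function.comp] at h5
    have ha : Tuple.sort (fun a => key (ι a)) (s⁻¹ a) = a := hai s a
    have hb : Tuple.sort (fun a => key (ι a)) (s⁻¹ b) = b := hai s b
    rw [ha, hb] at h5
    refine lt_of_le_of_ne h5 fun he => ?_
    have := ι.injective (h1 (hι a) (hι b) he)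
    rw [this] at hab
    exact lt_irrefl _ hab
  refine ⟨s⁻¹, fun j => ?_⟩
  have h6 : ∀ a : Fin k, ∃ t, ((ω j (g j t)).1, (ω j t).2) = P j (ι a) := by
    intro a
    simpa using h2 j (ι a) (hι a)
  choose tt htt using h6
  set sa := Tuple.sort fun t => (ω j t).1 with hsa
  set sb := Tuple.sort fun t => (ω j t).2 with hsb
  have hmono : StrictMono fun a => sa⁻¹ (g j (tt a)) := by
    intro a b hab
    refine (Tuple.monotone_sort fun t => (ω j t).1).reflect_lt ?_
    simp only [Function.comp, ← hsa, hai]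
    have := h3 j _ (hι a) _ (hι b) (ι.strictMono hab)
    rw [← htt a, ← htt b] at this
    exact this
  have hkey : ∀ a b, s⁻¹ a < s⁻¹ b → sb⁻¹ (tt a) < sb⁻¹ (tt b) := by
    intro a b hab
    refine (Tuple.monotone_sort fun t => (ω j t).2).reflect_lt ?_
    simp only [Function.comp, ← hsb, hai]
    have := h4 j _ (hι a) _ (hι b) (hs a b hab)
    rw [← htt a, ← htt b] at this
    exact this
  refine ⟨OrderEmbedding.ofStrictMono _ hmono, fun a b => ?_⟩
  simp only [OrderEmbedding.coe_ofStrictMono, Equiv.Perm.coe_mul, Function.comp,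
    ← hsa, ← hsb, hai, hia]
  refine ⟨hkey a b, fun h => ?_⟩
  rcases lt_trichotomy (s⁻¹ a) (s⁻¹ b) with h' | h' | h'
  · exact h'
  · rw [(s⁻¹).injective h'] at h
    exact absurd h (lt_irrefl _)
  · exact absurd h (hkey b a h').not_gt

/-- independent uniform cells versus uniform permutations -/
lemma av_Lc_le_av_Lp (hm : 0 < m) (n : ℕ) [Nonempty A] [Nonempty B] :
    av (fun ω : Fin m → Fin n → A × B => (Lc (fun j => univ.image (ω j)) : ℝ)) ≤
      av (fun π : Fin m → Equiv.Perm (Fin n) => (Lp π : ℝ)) := by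
  classical
  have h1 : ∀ g : Fin m → Equiv.Perm (Fin n),
      av (fun ω : Fin m → Fin n → A × B =>
        (Lc (fun j => univ.image fun t => ((ω j (g j t)).1, (ω j t).2)) : ℝ)) =
      av (fun ω : Fin m → Fin n → A × B => (Lc (fun j => univ.image (ω j)) : ℝ)) := by
    intro g
    let e : (Fin m → Fin n → A × B) ≃ (Fin m → Fin n → A × B) :=
      { toFun := fun ω j t => ((ω j (g j t)).1, (ω j t).2)
        invFun := fun ω j t => ((ω j ((g j)⁻¹ t)).1, (ω j t).2)
        left_inv := fun ω => by funext j t; simp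
        right_inv := fun ω => by funext j t; simp }
    exact av_equiv e (fun ω => (Lc (fun j => univ.image (ω j)) : ℝ))
  have h2 : ∀ ω : Fin m → Fin n → A × B,
      av (fun g : Fin m → Equiv.Perm (Fin n) =>
        (Lp (fun j => (Tuple.sort fun t => (ω j t).2)⁻¹ * (g j)⁻¹ *
          (Tuple.sort fun t => (ω j t).1)) : ℝ)) =
      av (fun π : Fin m → Equiv.Perm (Fin n) => (Lp π : ℝ)) := by
    intro ω
    let e : (Fin m → Equiv.Perm (Fin n)) ≃ (Fin m → Equiv.Perm (Fin n)) :=
      { toFun := fun g j => (Tuple.sort fun t => (ω j t).2)⁻¹ * (g j)⁻¹ *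
          (Tuple.sort fun t => (ω j t).1)
        invFun := fun g j => (Tuple.sort fun t => (ω j t).1) * (g j)⁻¹ *
          (Tuple.sort fun t => (ω j t).2)⁻¹
        left_inv := fun g => by funext j; group
        right_inv := fun g => by funext j; group }
    exact av_equiv e (fun π => (Lp π : ℝ))
  calc _ = av (fun g : Fin m → Equiv.Perm (Fin n) => av (fun ω : Fin m → Fin n → A × B =>
        (Lc (fun j => univ.image fun t => ((ω j (g j t)).1, (ω j t).2)) : ℝ))) := by
        simp only [h1, av_const]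
    _ = av (fun ω : Fin m → Fin n → A × B => av (fun g : Fin m → Equiv.Perm (Fin n) =>
        (Lc (fun j => univ.image fun t => ((ω j (g j t)).1, (ω j t).2)) : ℝ))) := av_comm _
    _ ≤ av (fun ω : Fin m → Fin n → A × B => av (fun g : Fin m → Equiv.Perm (Fin n) =>
        (Lp (fun j => (Tuple.sort fun t => (ω j t).2)⁻¹ * (g j)⁻¹ *
          (Tuple.sort fun t => (ω j t).1)) : ℝ))) :=
        av_mono fun ω => av_mono fun g => by exact_mod_cast Lc_le_Lp hm ω g
    _ = _ := by simp only [h2, av_const]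

end pat

section cmp

variable {m : ℕ} {C : Type} [Fintype C] [DecidableEq C] [Nonempty C]

/-- the symmetrised function -/
noncomputable def symm (f : (Fin m → Finset C) → ℝ) (S : Fin m → Finset C) : ℝ :=
  av fun ρ : Fin m → Equiv.Perm C => f fun j => (S j).map (ρ j).toEmbedding

lemma symm_le (f : (Fin m → Finset C) → ℝ)
    (hf : ∀ S S', (∀ j, S j ⊆ S' j) → f S ≤ f S') {S S' : Fin m → Finset C}
    (h : ∀ j, (S j).card ≤ (S' j).card) : symm f S ≤ symm f S' := by
  have h1 : ∀ j, ∃ e : Equiv.Perm C, (S j).map e.toEmbedding ⊆ S' j := by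
    intro j
    obtain ⟨t, ht, hc⟩ := exists_subset_card_eq (h j)
    obtain ⟨e, he⟩ := Equiv.Perm.exists_map_finset_eq (S j) t hc.symm
    exact ⟨e, he ▸ ht⟩
  choose e he using h1
  unfold symm
  rw [← av_equiv (Equiv.mulRight e)]
  refine av_mono fun ρ => hf _ _ fun j => ?_
  intro c hc
  simp only [Equiv.coe_mulRight, Pi.mul_apply, mem_map, Equiv.coe_toEmbedding,
    Equiv.Perm.coe_mul, Function.comp] at hc ⊢
  obtain ⟨a, ha, rfl⟩ := hc
  exact ⟨e j a, he j (mem_map.mpr ⟨a, ha, rfl⟩), rfl⟩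

/-- occupied cells of a field -/
def occ {D : ℕ} [NeZero D] (ω : Fin m × C → Fin D) (j : Fin m) : Finset C :=
  univ.filter fun c => ω (j, c) = 0

lemma av_symm_image (f : (Fin m → Finset C) → ℝ) (n : ℕ) :
    av (fun ω : Fin m → Fin n → C => f fun j => univ.image (ω j)) =
      av (fun ω : Fin m → Fin n → C => symm f fun j => univ.image (ω j)) := by
  unfold symm
  rw [av_comm]
  have : ∀ ρ : Fin m → Equiv.Perm C, av (fun ω : Fin m → Fin n → C =>
      f fun j => (univ.image (ω j)).map (ρ j).toEmbedding) =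
      av (fun ω : Fin m → Fin n → C => f fun j => univ.image (ω j)) := by
    intro ρ
    let e : (Fin m → Fin n → C) ≃ (Fin m → Fin n → C) :=
      { toFun := fun ω j t => ρ j (ω j t)
        invFun := fun ω j t => (ρ j).symm (ω j t)
        left_inv := fun ω => by funext j t; simp
        right_inv := fun ω => by funext j t; simp }
    rw [← av_equiv e (fun ω => f fun j => univ.image (ω j))]
    congr 1
    funext ω
    congr 1
    funext j
    ext c
    simp [e, Equiv.eq_symm_apply]
  simp only [this, av_const]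

lemma av_symm_occ (f : (Fin m → Finset C) → ℝ) (D : ℕ) [NeZero D] :
    av (fun ω : Fin m × C → Fin D => f (occ ω)) =
      av (fun ω : Fin m × C → Fin D => symm f (occ ω)) := by
  unfold symm
  rw [av_comm]
  have : ∀ ρ : Fin m → Equiv.Perm C, av (fun ω : Fin m × C → Fin D =>
      f fun j => (occ ω j).map (ρ j).toEmbedding) =
      av (fun ω : Fin m × C → Fin D => f (occ ω)) := by
    intro ρ
    let e : (Fin m × C → Fin D) ≃ (Fin m × C → Fin D) :=
      { toFun := fun ω p => ω (p.1, (ρ p.1).symm p.2)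
        invFun := fun ω p => ω (p.1, ρ p.1 p.2)
        left_inv := fun ω => by funext p; simp
        right_inv := fun ω => by funext p; simp }
    rw [← av_equiv e (fun ω => f (occ ω))]
    congr 1
    funext ω
    congr 1
    funext j
    ext c
    simp [e, occ, mem_map_equiv]
  simp only [this, av_const]

lemma av_eval {ι α : Type*} [Fintype ι] [DecidableEq ι] [Fintype α] [Nonempty α] (j : ι)
    (g : α → ℝ) : av (fun ω : ι → α => g (ω j)) = av g := by
  have h1 := av_restrict (α := α) (fun _ : Unit => j) (fun _ _ _ => rfl) (fun u => g (u ()))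
  rw [h1]
  exact av_equiv (Equiv.funUnique Unit α) g

lemma one_sub_pow_le (x : ℝ) (h0 : 0 ≤ x) (h1 : x ≤ 1) (n : ℕ) :
    (1 - x) ^ n ≤ 1 - n * x + (n * x) ^ 2 := by
  induction n with
  | zero => simp
  | succ n ih =>
    have hn : (0 : ℝ) ≤ n := Nat.cast_nonneg n
    rw [pow_succ]
    push_cast
    calc (1 - x) ^ n * (1 - x) ≤ (1 - n * x + (n * x) ^ 2) * (1 - x) :=
          mul_le_mul_of_nonneg_right ih (by linarith)
      _ ≤ _ := by nlinarith [mul_nonneg hn (sq_nonneg x), mul_nonneg (sq_nonneg (n * x)) h0]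

lemma av_image_card (n : ℕ) :
    av (fun ω : Fin n → C => (n : ℝ) - (univ.image ω).card) ≤ (n : ℝ) ^ 2 / Fintype.card C := by
  have hC : (1 : ℝ) ≤ Fintype.card C := by exact_mod_cast Fintype.card_pos
  have h1 : ∀ ω : Fin n → C, ((univ.image ω).card : ℝ) =
      ∑ c : C, (1 - ∏ t, if ω t = c then (0 : ℝ) else 1) := by
    intro ω
    rw [card_eq_sum_ones, Nat.cast_sum, ← sum_filter_add_sum_filter_not univ (· ∈ univ.image ω)]
    have h2 : ∑ c ∈ univ.filter (fun c => ¬ c ∈ univ.image ω),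
        (1 - ∏ t, if ω t = c then (0 : ℝ) else 1) = 0 := by
      refine sum_eq_zero fun c hc => ?_
      have : ∀ t, ω t ≠ c := by simpa using hc
      simp [this]
    rw [h2, add_zero, filter_mem_eq_inter, univ_inter]
    refine sum_congr rfl fun c hc => ?_
    obtain ⟨t, -, ht⟩ := mem_image.mp hc
    rw [prod_eq_zero (mem_univ t) (by simp [ht])]
    simp
  have h3 : ∀ c : C, av (fun a : C => if a = c then (0 : ℝ) else 1) =
      1 - 1 / Fintype.card C := by
    intro c
    have : (fun a : C => if a = c then (0 : ℝ) else 1) =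
        fun a => 1 - if a = c then (1 : ℝ) else 0 := by
      funext a; split_ifs <;> simp
    rw [this, av_sub, av_const]
    simp [av]
  simp only [h1]
  rw [av_sub, av_const, av_sum]
  simp only [av_sub, av_const]
  have h4 : ∀ c : C, av (fun ω : Fin n → C => ∏ t, if ω t = c then (0 : ℝ) else 1) =
      (1 - 1 / Fintype.card C) ^ n := by
    intro c
    rw [av_pi_prod (fun (_ : Fin n) (a : C) => if a = c then (0 : ℝ) else 1)]
    simp [h3]
  simp only [h4, sum_const, card_univ, nsmul_eq_mul]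
  have h5 := one_sub_pow_le (1 / Fintype.card C) (by positivity)
    (by rw [div_le_one (by linarith)]; exact hC) n
  have h6 : (n : ℝ) ^ 2 / Fintype.card C =
      Fintype.card C * (n * (1 / Fintype.card C)) ^ 2 := by field_simp
  have h7 : (n : ℝ) = Fintype.card C * (n * (1 / Fintype.card C)) := by field_simp
  rw [h6]
  nlinarith [mul_le_mul_of_nonneg_left h5 (by linarith : (0 : ℝ) ≤ Fintype.card C)]

lemma av_occ_pow (D : ℕ) [NeZero D] (j : Fin m) (θ : ℝ) :
    av (fun ω : Fin m × C → Fin D => (1 + θ) ^ (occ ω j).card) =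
      (1 + θ / D) ^ Fintype.card C := by
  have h1 := av_restrict (α := Fin D) (fun c : C => (j, c)) (fun _ _ h => (Prod.ext_iff.mp h).2)
    (fun u => ∏ c, if u c = 0 then 1 + θ else 1)
  have h2 : ∀ ω : Fin m × C → Fin D, (1 + θ) ^ (occ ω j).card =
      ∏ c, if ω (j, c) = 0 then 1 + θ else 1 := by
    intro ω
    rw [prod_ite]
    simp [occ]
  simp only [h2]
  rw [h1, av_pi_prod (fun (_ : C) (a : Fin D) => if a = 0 then 1 + θ else 1)]
  have h3 : av (fun a : Fin D => if a = 0 then 1 + θ else 1) = 1 + θ / D := by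
    have : (fun a : Fin D => if a = 0 then 1 + θ else 1) =
        fun a => 1 + if a = 0 then θ else 0 := by
      funext a; split_ifs <;> simp
    rw [this, av_add, av_const]
    simp [av]
  simp [h3]

/-- comparison of independent cells with an independent field -/
lemma compare (f : (Fin m → Finset C) → ℝ) (cap : ℝ)
    (hf : ∀ S S', (∀ j, S j ⊆ S' j) → f S ≤ f S') (h0 : ∀ S, 0 ≤ f S) (hcap : ∀ S, f S ≤ cap)
    (n N₀ D : ℕ) [NeZero D] (hN : N₀ < n) (θ : ℝ) (hθ : 0 ≤ θ) (c : ℝ) (hc0 : 0 ≤ c)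
    (hc : c ≤ av (fun ω : Fin m × C → Fin D => f (occ ω)) -
      cap * (m * ((1 + θ / D) ^ Fintype.card C / (1 + θ) ^ N₀))) :
    c * (1 - m * ((n : ℝ) ^ 2 / Fintype.card C / (n - N₀))) ≤
      av (fun ω : Fin m → Fin n → C => f fun j => univ.image (ω j)) := by
  have hcap0 : 0 ≤ cap := (h0 fun _ => ∅).trans (hcap _)
  have hN' : (0 : ℝ) < n - N₀ := by
    have : (N₀ : ℝ) < n := by exact_mod_cast hN
    linarith
  have hs0 : ∀ S, 0 ≤ symm f S := fun S => av_nonneg fun _ => h0 _
  have hsc : ∀ S, symm f S ≤ cap := fun S => av_le_const fun _ => hcap _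
  have hbig : ∀ S : Fin m → Finset C, (∀ j, N₀ ≤ (S j).card) → c ≤ symm f S := by
    intro S hS
    refine hc.trans ?_
    rw [av_symm_occ, sub_le_iff_le_add]
    have h1 : ∀ ω : Fin m × C → Fin D, symm f (occ ω) ≤
        symm f S + cap * ∑ j, (1 + θ) ^ (occ ω j).card / (1 + θ) ^ N₀ := by
      intro ω
      have hnn : ∀ j, 0 ≤ (1 + θ) ^ (occ ω j).card / (1 + θ) ^ N₀ := fun j => by positivity
      by_cases h : ∀ j, (occ ω j).card ≤ N₀
      · have := symm_le f hf fun j => (h j).trans (hS j)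
        have h2 := mul_nonneg hcap0 (sum_nonneg fun j (_ : j ∈ univ) => hnn j)
        linarith
      · push Not at h
        obtain ⟨j, hj⟩ := h
        have h2 : 1 ≤ (1 + θ) ^ (occ ω j).card / (1 + θ) ^ N₀ := by
          rw [le_div_iff₀ (by positivity), one_mul]
          exact pow_le_pow_right₀ (by linarith) hj.le
        have h3 := single_le_sum (fun j (_ : j ∈ univ) => hnn j) (mem_univ j)
        have h4 := mul_le_mul_of_nonneg_left (h2.trans h3) hcap0
        linarith [hsc (occ ω), hs0 S]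
    refine (av_mono h1).trans_eq ?_
    rw [av_add, av_const, av_mul_left, av_sum]
    simp only [div_eq_mul_inv, av_mul_right, av_occ_pow]
    simp
  rw [av_symm_image]
  have h5 : ∀ ω : Fin m → Fin n → C,
      c - c * ∑ j, ((n : ℝ) - (univ.image (ω j)).card) * ((n : ℝ) - N₀)⁻¹ ≤
        symm f fun j => univ.image (ω j) := by
    intro ω
    have hnn : ∀ j, 0 ≤ ((n : ℝ) - (univ.image (ω j)).card) * ((n : ℝ) - N₀)⁻¹ := by
      intro j
      have : ((univ.image (ω j)).card : ℝ) ≤ n := by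
        exact_mod_cast card_image_le.trans (by simp)
      exact mul_nonneg (by linarith) (inv_nonneg.mpr hN'.le)
    by_cases h : ∀ j, N₀ ≤ (univ.image (ω j)).card
    · have h2 := mul_nonneg hc0 (sum_nonneg fun j (_ : j ∈ univ) => hnn j)
      linarith [hbig _ h]
    · push Not at h
      obtain ⟨j, hj⟩ := h
      have h2 : 1 ≤ ((n : ℝ) - (univ.image (ω j)).card) * ((n : ℝ) - N₀)⁻¹ := by
        rw [← div_eq_mul_inv, le_div_iff₀ hN']
        have : ((univ.image (ω j)).card : ℝ) < N₀ := by exact_mod_cast hj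
        linarith
      have h3 := single_le_sum (fun j (_ : j ∈ univ) => hnn j) (mem_univ j)
      have h4 := mul_le_mul_of_nonneg_left (h2.trans h3) hc0
      linarith [hs0 fun j => univ.image (ω j)]
  refine le_trans ?_ (av_mono h5)
  rw [av_sub, av_const, av_mul_left, av_sum]
  have h6 : ∀ j : Fin m, av (fun ω : Fin m → Fin n → C =>
      ((n : ℝ) - (univ.image (ω j)).card) * ((n : ℝ) - N₀)⁻¹) ≤
      (n : ℝ) ^ 2 / Fintype.card C / (n - N₀) := by
    intro j
    rw [av_mul_right, av_eval j (fun u : Fin n → C => (n : ℝ) - (univ.image u).card),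
      div_eq_mul_inv _ ((n : ℝ) - N₀)]
    exact mul_le_mul_of_nonneg_right (av_image_card n) (inv_nonneg.mpr hN'.le)
  have h7 := sum_le_sum fun j (_ : j ∈ univ) => h6 j
  simp only [sum_const, card_univ, Fintype.card_fin, nsmul_eq_mul] at h7
  nlinarith [mul_le_mul_of_nonneg_left h7 hc0]

end cmp

end Pool.Agent.H116Z.LCP
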